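import Pool.Agent.R563.PCl.Recover

set_option autoImplicit false

/-! # Asymptotics -/

noncomputable section

namespace Pool.Agent.R563.PCl

open Finset Filter Asymptotics Topology

variable {n : ℕ}

/-! ### The polynomials -/

/-- the polynomial counting cliques on `z` and `r` vertices of `B` -/
def blkPoly (z : Fin n) (B : Finset (Fin n)) (r : ℕ) : MvPolynomial (Edge n) ℝ :=
  ∑ T ∈ B.powersetCard r, ∏ e ∈ eIn (insert z T), MvPolynomial.X e

theorem eval_blkPoly (z : Fin n) (B : Finset (Fin n)) (r : ℕ) (y : Edge n → ℝ) :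
    MvPolynomial.eval y (blkPoly z B r) = blk z B r y := by
  unfold blkPoly blk cl
  rw [map_sum]
  refine Finset.sum_congr rfl fun T _ => ?_
  rw [map_prod]
  refine Finset.prod_congr rfl fun e _ => ?_
  rw [MvPolynomial.eval_X]

theorem totalDegree_blkPoly (z : Fin n) (B : Finset (Fin n)) (r : ℕ) :
    (blkPoly z B r).totalDegree ≤ (r + 1) ^ 2 := by
  unfold blkPoly
  apply MvPolynomial.totalDegree_finsetSum_le
  intro T hT
  rw [Finset.mem_powersetCard] at hT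
  refine (totalDegree_cl (insert z T)).trans ?_
  apply Nat.pow_le_pow_left
  rw [← hT.2]
  exact Finset.card_insert_le _ _

/-- the estimator as a polynomial -/
def estPoly (p : ℝ) (z : Fin n) (B1 B2 : Finset (Fin n)) (r : ℕ) : MvPolynomial (Edge n) ℝ :=
  1 - (1 - MvPolynomial.C (mu B1.card r p)⁻¹ * blkPoly z B1 r)
    * (1 - MvPolynomial.C (mu B2.card r p)⁻¹ * blkPoly z B2 r)

theorem eval_estPoly (p : ℝ) (z : Fin n) (B1 B2 : Finset (Fin n)) (r : ℕ) (y : Edge n → ℝ) :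
    MvPolynomial.eval y (estPoly p z B1 B2 r) = est p z B1 B2 r y := by
  unfold estPoly est wblk
  simp only [map_sub, map_one, map_mul, MvPolynomial.eval_C, eval_blkPoly]

theorem totalDegree_one_sub (c : ℝ) (z : Fin n) (B : Finset (Fin n)) (r : ℕ) :
    (1 - MvPolynomial.C c * blkPoly z B r).totalDegree ≤ (r + 1) ^ 2 := by
  refine (MvPolynomial.totalDegree_sub _ _).trans ?_
  apply max_le
  · rw [MvPolynomial.totalDegree_one]; exact Nat.zero_le _
  · refine (MvPolynomial.totalDegree_mul _ _).trans ?_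
    rw [MvPolynomial.totalDegree_C, zero_add]
    exact totalDegree_blkPoly z B r

theorem totalDegree_estPoly (p : ℝ) (z : Fin n) (B1 B2 : Finset (Fin n)) (r : ℕ) :
    (estPoly p z B1 B2 r).totalDegree ≤ 2 * (r + 1) ^ 2 := by
  unfold estPoly
  refine (MvPolynomial.totalDegree_sub _ _).trans ?_
  apply max_le
  · rw [MvPolynomial.totalDegree_one]; exact Nat.zero_le _
  · refine (MvPolynomial.totalDegree_mul _ _).trans ?_
    have h1 := totalDegree_one_sub (mu B1.card r p)⁻¹ z B1 r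
    have h2 := totalDegree_one_sub (mu B2.card r p)⁻¹ z B2 r
    omega

/-! ### The parameters -/

/-- half the clique size -/
def dd (n : ℕ) : ℕ := 4 * (Nat.log 2 n + 1)

/-- the clique size -/
def rr (n : ℕ) : ℕ := 2 * dd n + 1

theorem half_dd (n : ℕ) : ((1 : ℝ) / 2) ^ dd n * (n : ℝ) ^ 4 ≤ 1 := by
  unfold dd
  rw [mul_comm 4, pow_mul, ← mul_pow]
  apply pow_le_one₀ (by positivity)
  rw [one_div, inv_pow, inv_mul_le_iff₀ (by positivity), mul_one]
  have := Nat.lt_pow_succ_log_self (b := 2) (by norm_num) n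
  exact_mod_cast this.le

theorem rr_le {n : ℕ} (hn : 3 ≤ n) : ((rr n : ℕ) : ℝ) + 1 ≤ 26 * Real.log n := by
  have hn' : (3 : ℝ) ≤ n := by exact_mod_cast hn
  have h1 : 1 ≤ Real.log n := by
    rw [Real.le_log_iff_exp_le (by linarith)]
    have := Real.exp_one_lt_d9
    linarith
  have h2 : ((Nat.log 2 n : ℕ) : ℝ) ≤ 2 * Real.log n := by
    have h3 : ((2 : ℕ) : ℝ) ^ Nat.log 2 n ≤ n := by
      exact_mod_cast Nat.pow_log_le_self 2 (by omega)
    have h4 : (Nat.log 2 n : ℝ) * Real.log 2 ≤ Real.log n := by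
      rw [← Real.log_pow]
      apply Real.log_le_log (by positivity)
      exact_mod_cast h3
    have h5 : (1 : ℝ) / 2 ≤ Real.log 2 := by
      have := Real.log_two_gt_d9
      linarith
    have h6 : (0 : ℝ) ≤ (Nat.log 2 n : ℝ) := by positivity
    nlinarith
  unfold rr dd
  push_cast
  linarith

theorem rr_pos (n : ℕ) : 1 ≤ ((rr n : ℕ) : ℝ) := by
  unfold rr; push_cast
  have : (0 : ℝ) ≤ (dd n : ℝ) := by positivity
  linarith

/-- `r⁴ / k → 0` -/
theorem tendsto_main {a : ℝ} (ha : 0 < a) {k : ℕ → ℝ} (hk0 : ∀ n, 0 ≤ k n)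
    (hk : k =Θ[atTop] fun n : ℕ => (n : ℝ) ^ a) :
    (∀ᶠ n in atTop, 0 < k n) ∧ Tendsto (fun n => ((rr n : ℕ) : ℝ) ^ 4 / k n) atTop (𝓝 0) := by
  obtain ⟨c, hc, hcb⟩ := hk.2.exists_pos
  rw [IsBigOWith] at hcb
  have hpos : ∀ᶠ n : ℕ in atTop, 0 < k n ∧ (n : ℝ) ^ a ≤ c * k n := by
    filter_upwards [hcb, eventually_ge_atTop 1] with n h1 h2
    have hn : (0 : ℝ) < n := by exact_mod_cast h2
    have h3 : 0 < (n : ℝ) ^ a := Real.rpow_pos_of_pos hn a
    rw [Real.norm_of_nonneg h3.le, Real.norm_of_nonneg (hk0 n)] at h1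
    refine ⟨?_, h1⟩
    by_contra h4
    have h5 : k n = 0 := le_antisymm (not_lt.1 h4) (hk0 n)
    rw [h5, mul_zero] at h1
    linarith
  refine ⟨hpos.mono fun n h => h.1, ?_⟩
  have hlog : Tendsto (fun n : ℕ => c * 26 ^ 4 * ((Real.log n) ^ (4 : ℝ) / (n : ℝ) ^ a)) atTop
      (𝓝 0) := by
    have h1 := (isLittleO_log_rpow_rpow_atTop (4 : ℝ) ha).tendsto_div_nhds_zero
    have h2 := h1.comp tendsto_natCast_atTop_atTop
    have h3 := h2.const_mul (c * 26 ^ 4)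
    rw [mul_zero] at h3
    exact h3
  refine squeeze_zero' ?_ ?_ hlog
  · filter_upwards [hpos] with n h
    have := h.1
    positivity
  · filter_upwards [hpos, eventually_ge_atTop 3] with n h hn
    have h1 := rr_le hn
    have h2 := rr_pos n
    have hn0 : (0 : ℝ) < n := by
      have : 0 < n := by omega
      exact_mod_cast this
    have h3 : 0 < (n : ℝ) ^ a := Real.rpow_pos_of_pos hn0 a
    have h4 : ((rr n : ℕ) : ℝ) ^ 4 ≤ (26 * Real.log n) ^ 4 :=
      pow_le_pow_left₀ (by linarith) (by linarith) 4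
    have h5 : (Real.log n) ^ (4 : ℝ) = (Real.log n) ^ 4 := by
      rw [show (4 : ℝ) = ((4 : ℕ) : ℝ) by norm_num, Real.rpow_natCast]
    rw [h5, div_le_iff₀ h.1]
    have h6 : (1 : ℝ) ≤ c * k n / (n : ℝ) ^ a := by
      rw [le_div_iff₀ h3]; linarith [h.2]
    calc ((rr n : ℕ) : ℝ) ^ 4 ≤ (26 * Real.log n) ^ 4 * 1 := by rw [mul_one]; exact h4
      _ ≤ (26 * Real.log n) ^ 4 * (c * k n / (n : ℝ) ^ a) := by
          apply mul_le_mul_of_nonneg_left h6 (by positivity)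
      _ = c * 26 ^ 4 * (Real.log n ^ 4 / (n : ℝ) ^ a) * k n := by ring

/-- the bound for the exponent -/
theorem xx_le {n : ℕ} (hn : 1 ≤ n) {κ : ℝ} (hκ : 0 < κ) {N : ℝ}
    (hN : (n : ℝ) / 3 + rr n ≤ N) : xx N (κ / n) (dd n) ≤ 5 * (rr n : ℝ) ^ 2 / κ := by
  have hn0 : (0 : ℝ) < n := by exact_mod_cast hn
  have hn1 : (1 : ℝ) ≤ n := by exact_mod_cast hn
  have h1 := half_dd n
  have hr := rr_pos n
  have h2 : ((1 : ℝ) / 2) ^ dd n * n ≤ 1 := by
    have h3 : (n : ℝ) ≤ (n : ℝ) ^ 4 := by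
      calc (n : ℝ) = (n : ℝ) ^ 1 := (pow_one _).symm
        _ ≤ (n : ℝ) ^ 4 := pow_le_pow_right₀ hn1 (by norm_num)
    refine le_trans ?_ h1
    gcongr
  unfold xx
  have e1 : ((2 * dd n + 1 : ℕ) : ℝ) = (rr n : ℝ) := rfl
  rw [e1]
  have h3 : 2 * (rr n : ℝ) * ((1 / 2) ^ dd n / (κ / n)) ≤ 2 * (rr n : ℝ) ^ 2 / κ := by
    have h4 : ((1 : ℝ) / 2) ^ dd n / (κ / n) = (((1 : ℝ) / 2) ^ dd n * n) / κ := by
      field_simp
    rw [h4, mul_div_assoc' , div_le_div_iff_of_pos_right hκ]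
    nlinarith
  have h5 : (rr n : ℝ) ^ 2 / ((N - rr n + 1) * (κ / n)) ≤ 3 * (rr n : ℝ) ^ 2 / κ := by
    have h6 : κ / 3 ≤ (N - rr n + 1) * (κ / n) := by
      have h7 : (n : ℝ) / 3 ≤ N - rr n + 1 := by linarith
      calc κ / 3 = (n : ℝ) / 3 * (κ / n) := by field_simp
        _ ≤ _ := by
          apply mul_le_mul_of_nonneg_right h7 (by positivity)
    calc (rr n : ℝ) ^ 2 / ((N - rr n + 1) * (κ / n)) ≤ (rr n : ℝ) ^ 2 / (κ / 3) := by
          apply div_le_div_of_nonneg_left (by positivity) (by positivity) h6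
      _ = _ := by field_simp
  calc _ ≤ 2 * (rr n : ℝ) ^ 2 / κ + 3 * (rr n : ℝ) ^ 2 / κ := add_le_add h3 h5
    _ = _ := by ring

/-- the bound for the correction factor -/
theorem MM_le {n : ℕ} (hn : 1 ≤ n) {κ : ℝ} (hκ : 0 < κ) {N : ℝ}
    (hN : (n : ℝ) / 3 + rr n ≤ N) (hs : 5 * (rr n : ℝ) ^ 2 / κ ≤ 1) :
    MM N (κ / n) (dd n) ≤ 1 + 10 * (rr n : ℝ) ^ 2 / κ := by
  have hn0 : (0 : ℝ) < n := by exact_mod_cast hn
  have hp : 0 < κ / n := by positivity
  have e1 : ((2 * dd n + 1 : ℕ) : ℝ) = (rr n : ℝ) := rfl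
  have hN' : ((2 * dd n + 1 : ℕ) : ℝ) ≤ N := by
    rw [e1]
    have : (0 : ℝ) ≤ (n : ℝ) / 3 := by positivity
    linarith
  have h1 := MM_le_exp (d := dd n) hp hN'
  have h2 := xx_le hn hκ hN
  have h3 := xx_nonneg (d := dd n) hp hN'
  have h4 : |xx N (κ / n) (dd n)| ≤ 1 := by
    rw [abs_of_nonneg h3]; linarith
  have h5 := Real.abs_exp_sub_one_le h4
  rw [abs_of_nonneg h3] at h5
  have h6 := (abs_le.1 h5).2
  have h7 : 10 * (rr n : ℝ) ^ 2 / κ = 2 * (5 * (rr n : ℝ) ^ 2 / κ) := by ring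
  rw [h7]
  linarith

end Pool.Agent.R563.PCl
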