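import Pool.Agent.R563.PCl.Defs

set_option autoImplicit false

/-! # Sums over bits -/

noncomputable section

namespace Pool.Agent.R563.PCl

open Finset

variable {ι : Type} [Fintype ι] [DecidableEq ι]

/-- products of functions of one coordinate -/
theorem sum_prod_bool (h : ι → Bool → ℝ) :
    ∑ x : ι → Bool, ∏ i, h i (x i) = ∏ i, (h i true + h i false) := by
  have h1 := Finset.prod_univ_sum (fun _ : ι => (Finset.univ : Finset Bool)) h
  rw [Fintype.piFinset_univ] at h1
  rw [← h1]
  refine Finset.prod_congr rfl fun i _ => ?_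
  simp

/-- expectation for independent bits -/
def EW (w : ι → Bool → ℝ) (F : (ι → Bool) → ℝ) : ℝ := ∑ x : ι → Bool, (∏ i, w i (x i)) * F x

theorem EW_add (w : ι → Bool → ℝ) (F G : (ι → Bool) → ℝ) :
    EW w (fun x => F x + G x) = EW w F + EW w G := by
  unfold EW
  rw [← Finset.sum_add_distrib]
  exact Finset.sum_congr rfl fun x _ => by ring

theorem EW_mul (w : ι → Bool → ℝ) (c : ℝ) (F : (ι → Bool) → ℝ) :
    EW w (fun x => c * F x) = c * EW w F := by
  unfold EW
  rw [Finset.mul_sum]
  exact Finset.sum_congr rfl fun x _ => by ring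

theorem EW_sum {κ : Type} (w : ι → Bool → ℝ) (S : Finset κ) (F : κ → (ι → Bool) → ℝ) :
    EW w (fun x => ∑ k ∈ S, F k x) = ∑ k ∈ S, EW w (F k) := by
  unfold EW
  simp only [Finset.mul_sum]
  rw [Finset.sum_comm]

theorem EW_mono {w : ι → Bool → ℝ} (hw : ∀ i b, 0 ≤ w i b) {F G : (ι → Bool) → ℝ}
    (h : ∀ x, F x ≤ G x) : EW w F ≤ EW w G := by
  unfold EW
  exact Finset.sum_le_sum fun x _ =>
    mul_le_mul_of_nonneg_left (h x) (Finset.prod_nonneg fun i _ => hw i _)

theorem EW_const {w : ι → Bool → ℝ} (hw : ∀ i, w i true + w i false = 1) (c : ℝ) :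
    EW w (fun _ => c) = c := by
  unfold EW
  rw [← Finset.sum_mul, sum_prod_bool, Finset.prod_congr rfl fun i _ => hw i]
  simp

/-- products of functions of one coordinate -/
theorem EW_prod (w : ι → Bool → ℝ) (h : ι → Bool → ℝ) :
    EW w (fun x => ∏ i, h i (x i)) = ∏ i, (w i true * h i true + w i false * h i false) := by
  unfold EW
  rw [← sum_prod_bool (fun i b => w i b * h i b)]
  refine Finset.sum_congr rfl fun x _ => ?_
  rw [Finset.prod_mul_distrib]

/-- independence of functions of disjoint blocks of coordinates -/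
theorem EW_indep {w : ι → Bool → ℝ} (hw : ∀ i, w i true + w i false = 1) (P : ι → Prop)
    [DecidablePred P] {F G : (ι → Bool) → ℝ}
    (hF : ∀ x y, (∀ i, P i → x i = y i) → F x = F y)
    (hG : ∀ x y, (∀ i, ¬ P i → x i = y i) → G x = G y) :
    EW w (fun x => F x * G x) = EW w F * EW w G := by
  set e := Equiv.piEquivPiSubtypeProd P (fun _ : ι => Bool) with he
  -- restrictions
  set F' : ({i // P i} → Bool) → ℝ := fun u => F (e.symm (u, fun _ => true)) with hF'
  set G' : ({i // ¬ P i} → Bool) → ℝ := fun v => G (e.symm (fun _ => true, v)) with hG'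
  have hFe : ∀ u v, F (e.symm (u, v)) = F' u := by
    intro u v
    apply hF
    intro i hi
    simp [he, Equiv.piEquivPiSubtypeProd, hi]
  have hGe : ∀ u v, G (e.symm (u, v)) = G' v := by
    intro u v
    apply hG
    intro i hi
    simp [he, Equiv.piEquivPiSubtypeProd, hi]
  set WU : ({i // P i} → Bool) → ℝ := fun u => ∏ i : {i // P i}, w i.1 (u i) with hWU
  set WV : ({i // ¬ P i} → Bool) → ℝ := fun v => ∏ i : {i // ¬ P i}, w i.1 (v i) with hWV
  have hwe : ∀ u v, ∏ i, w i (e.symm (u, v) i) = WU u * WV v := by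
    intro u v
    rw [← Fintype.prod_subtype_mul_prod_subtype P]
    congr 1
    · refine Finset.prod_congr rfl fun i _ => ?_
      have := i.2
      simp [he, Equiv.piEquivPiSubtypeProd, this]
    · refine Finset.prod_congr rfl fun i _ => ?_
      have := i.2
      simp [he, Equiv.piEquivPiSubtypeProd, this]
  have hsplit : ∀ Φ : (ι → Bool) → ℝ, EW w Φ
      = ∑ u : {i // P i} → Bool, ∑ v : {i // ¬ P i} → Bool,
        (WU u * WV v) * Φ (e.symm (u, v)) := by
    intro Φ
    unfold EW
    rw [← Equiv.sum_comp e.symm, Fintype.sum_prod_type]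
    refine Finset.sum_congr rfl fun u _ => Finset.sum_congr rfl fun v _ => ?_
    rw [hwe]
  have hu : ∑ u : {i // P i} → Bool, WU u = 1 := by
    rw [hWU, sum_prod_bool (fun (i : {i // P i}) b => w i.1 b)]
    exact Finset.prod_eq_one fun i _ => hw i
  have hv : ∑ v : {i // ¬ P i} → Bool, WV v = 1 := by
    rw [hWV, sum_prod_bool (fun (i : {i // ¬ P i}) b => w i.1 b)]
    exact Finset.prod_eq_one fun i _ => hw i
  rw [hsplit, hsplit F, hsplit G]
  simp only [hFe, hGe]
  have h1 : ∑ u : {i // P i} → Bool, ∑ v : {i // ¬ P i} → Bool,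
        (WU u * WV v) * (F' u * G' v)
      = (∑ u : {i // P i} → Bool, WU u * F' u) * ∑ v : {i // ¬ P i} → Bool, WV v * G' v := by
    rw [Finset.sum_mul_sum]
    refine Finset.sum_congr rfl fun u _ => Finset.sum_congr rfl fun v _ => by ring
  have h2 : ∑ u : {i // P i} → Bool, ∑ v : {i // ¬ P i} → Bool, (WU u * WV v) * F' u
      = ∑ u : {i // P i} → Bool, WU u * F' u := by
    refine Finset.sum_congr rfl fun u _ => ?_
    calc _ = (WU u * F' u) * ∑ v : {i // ¬ P i} → Bool, WV v := by
          rw [Finset.mul_sum]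
          exact Finset.sum_congr rfl fun v _ => by ring
      _ = _ := by rw [hv, mul_one]
  have h3 : ∑ u : {i // P i} → Bool, ∑ v : {i // ¬ P i} → Bool, (WU u * WV v) * G' v
      = ∑ v : {i // ¬ P i} → Bool, WV v * G' v := by
    rw [Finset.sum_comm]
    refine Finset.sum_congr rfl fun v _ => ?_
    calc _ = (WV v * G' v) * ∑ u : {i // P i} → Bool, WU u := by
          rw [Finset.mul_sum]
          exact Finset.sum_congr rfl fun u _ => by ring
      _ = _ := by rw [hu, mul_one]
  rw [h1, h2, h3]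

/-- the fair weights -/
def wh (_ : ι) (_ : Bool) : ℝ := 1 / 2

theorem EW_half (F : (ι → Bool) → ℝ) :
    EW wh F = (1 / 2) ^ Fintype.card ι * ∑ x : ι → Bool, F x := by
  unfold EW wh
  rw [Finset.mul_sum]
  refine Finset.sum_congr rfl fun x _ => ?_
  rw [Finset.prod_const, Finset.card_univ]

/-- the weights of the vertices -/
def wp (p : ℝ) (_ : ι) (b : Bool) : ℝ := if b = true then p else 1 - p

theorem wt_eq {n : ℕ} (p : ℝ) (s : Fin n → Bool) : wt p s = ∏ v, wp p v (s v) := rfl

theorem EP_eq (n : ℕ) (p : ℝ) (F : (Fin n → Bool) → (Edge n → ℝ) → ℝ) :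
    EP n p F = EW (wp p) (fun s => EW wh (fun ω => F s (obs s ω))) := by
  unfold EP EW
  refine Finset.sum_congr rfl fun s _ => ?_
  rw [wt_eq]
  congr 1
  have := EW_half (fun ω : Edge n → Bool => F s (obs s ω))
  rw [← this]
  rfl

end Pool.Agent.R563.PCl
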