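import Pool.Agent.R563.PCl.Basic

set_option autoImplicit false

/-! # Cliques in the planted model -/

noncomputable section

namespace Pool.Agent.R563.PCl

open Finset

variable {n : ℕ}

/-- the pairs inside `T` -/
def eIn (T : Finset (Fin n)) : Finset (Edge n) := univ.filter fun e => e.1.1 ∈ T ∧ e.1.2 ∈ T

theorem mem_eIn {T : Finset (Fin n)} {e : Edge n} : e ∈ eIn T ↔ e.1.1 ∈ T ∧ e.1.2 ∈ T := by
  simp [eIn]

/-- the indicator of the event that `T` is a clique -/
def cl (T : Finset (Fin n)) (y : Edge n → ℝ) : ℝ := ∏ e ∈ eIn T, y e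

/-- the number of pairs in `H` which are not inside `S` -/
def bd (s : Fin n → Bool) (H : Finset (Edge n)) : ℕ :=
  (H.filter fun e => ¬ (s e.1.1 = true ∧ s e.1.2 = true)).card

theorem mono_obs (s : Fin n → Bool) (H : Finset (Edge n)) :
    EW wh (fun ω => ∏ e ∈ H, obs s ω e) = (1 / 2) ^ bd s H := by
  classical
  let g : Edge n → Bool → ℝ := fun e b =>
      if e ∈ H then (if b = true ∨ (s e.1.1 = true ∧ s e.1.2 = true) then (1 : ℝ) else 0)
      else 1
  have h1 : ∀ ω : Edge n → Bool, ∏ e ∈ H, obs s ω e = ∏ e, g e (ω e) := by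
    intro ω
    simp only [g]
    rw [Finset.prod_ite_mem]
    simp [obs]
  have h1' : (fun ω : Edge n → Bool => ∏ e ∈ H, obs s ω e) = fun ω => ∏ e, g e (ω e) :=
    funext h1
  rw [h1', EW_prod wh g]
  have h2 : ∀ e : Edge n, (wh e true * g e true + wh e false * g e false)
      = if e ∈ H.filter (fun e => ¬ (s e.1.1 = true ∧ s e.1.2 = true)) then 1 / 2 else 1 := by
    intro e
    simp only [g]
    unfold wh
    by_cases he : e ∈ H
    · by_cases hs : s e.1.1 = true ∧ s e.1.2 = true
      · simp [he, hs]; norm_num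
      · simp [he, hs]
    · simp [he]; norm_num
  rw [Finset.prod_congr rfl fun e _ => h2 e]
  rw [Finset.prod_ite_mem, Finset.univ_inter, Finset.prod_const]
  rfl

theorem obs_mul (s : Fin n → Bool) (ω : Edge n → Bool) (A B : Finset (Edge n)) :
    (∏ e ∈ A, obs s ω e) * ∏ e ∈ B, obs s ω e = ∏ e ∈ A ∪ B, obs s ω e := by
  classical
  unfold obs
  rw [Finset.prod_boole, Finset.prod_boole, Finset.prod_boole]
  by_cases hA : ∀ i ∈ A, ω i = true ∨ (s i.1.1 = true ∧ s i.1.2 = true)
  · by_cases hB : ∀ i ∈ B, ω i = true ∨ (s i.1.1 = true ∧ s i.1.2 = true)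
    · have hAB : ∀ i ∈ A ∪ B, ω i = true ∨ (s i.1.1 = true ∧ s i.1.2 = true) := by
        intro i hi
        rcases Finset.mem_union.1 hi with h | h
        · exact hA i h
        · exact hB i h
      rw [if_pos hA, if_pos hB, if_pos hAB, mul_one]
    · have hAB : ¬ ∀ i ∈ A ∪ B, ω i = true ∨ (s i.1.1 = true ∧ s i.1.2 = true) :=
        fun h => hB fun i hi => h i (Finset.mem_union_right _ hi)
      rw [if_neg hB, if_neg hAB, mul_zero]
  · have hAB : ¬ ∀ i ∈ A ∪ B, ω i = true ∨ (s i.1.1 = true ∧ s i.1.2 = true) :=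
      fun h => hA fun i hi => h i (Finset.mem_union_left _ hi)
    rw [if_neg hA, if_neg hAB, zero_mul]

/-- the pair `{u, v}` -/
def mkE (u v : Fin n) (h : u ≠ v) : Edge n :=
  if h' : u < v then ⟨(u, v), h'⟩ else ⟨(v, u), lt_of_le_of_ne (not_lt.1 h') h.symm⟩

theorem mkE_mem {T : Finset (Fin n)} {u v : Fin n} (h : u ≠ v) :
    mkE u v h ∈ eIn T ↔ u ∈ T ∧ v ∈ T := by
  unfold mkE
  split_ifs
  · rw [mem_eIn]
  · rw [mem_eIn]; exact and_comm

/-- `v` is an endpoint of `e` -/
def inc (v : Fin n) (e : Edge n) : Prop := v = e.1.1 ∨ v = e.1.2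

instance (v : Fin n) (e : Edge n) : Decidable (inc v e) := by unfold inc; infer_instance

theorem mkE_inc {u v w : Fin n} (h : u ≠ v) : inc w (mkE u v h) ↔ w = u ∨ w = v := by
  unfold mkE inc
  split_ifs
  · rfl
  · exact or_comm

/-- degrees in a complete graph -/
theorem deg_ge (T : Finset (Fin n)) {v : Fin n} (hv : v ∈ T) :
    T.card - 1 ≤ ((eIn T).filter fun e => inc v e).card := by
  classical
  rw [← Finset.card_erase_of_mem hv]
  refine Finset.card_le_card_of_surjOn (fun e => if v = e.1.1 then e.1.2 else e.1.1) ?_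
  intro u hu
  rw [Finset.mem_coe, Finset.mem_erase] at hu
  refine ⟨mkE u v hu.1, ?_, ?_⟩
  · rw [Finset.mem_coe, Finset.mem_filter, mkE_mem, mkE_inc]
    exact ⟨⟨hu.2, hv⟩, Or.inr rfl⟩
  · unfold mkE
    by_cases h : u < v
    · rw [dif_pos h]
      simp [hu.1.symm]
    · rw [dif_neg h]
      simp

/-- the vertices outside `S` -/
def out (s : Fin n → Bool) (U : Finset (Fin n)) : Finset (Fin n) := U.filter fun v => s v = false

/-- many pairs are not inside `S` -/
theorem bd_ge (s : Fin n → Bool) {d : ℕ} {T T' : Finset (Fin n)} (hT : 2 * d + 1 ≤ T.card)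
    (hT' : 2 * d + 1 ≤ T'.card) : d * (out s (T ∪ T')).card ≤ bd s (eIn T ∪ eIn T') := by
  classical
  set H := eIn T ∪ eIn T' with hH
  set W := out s (T ∪ T') with hW
  set Hb := H.filter (fun e => ¬ (s e.1.1 = true ∧ s e.1.2 = true)) with hHb
  have h1 : ∀ v ∈ W, 2 * d ≤ (Hb.filter fun e => inc v e).card := by
    intro v hv
    rw [hW, out, Finset.mem_filter, Finset.mem_union] at hv
    have key : ∀ R : Finset (Fin n), 2 * d + 1 ≤ R.card → v ∈ R → eIn R ⊆ H →
        2 * d ≤ (Hb.filter fun e => inc v e).card := by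
      intro R hR hvR hsub
      have h2 := deg_ge R hvR
      refine le_trans (by omega) (h2.trans (Finset.card_le_card ?_))
      intro e he
      rw [Finset.mem_filter] at he
      rw [Finset.mem_filter, hHb, Finset.mem_filter]
      refine ⟨⟨hsub he.1, ?_⟩, he.2⟩
      rintro ⟨h3, h4⟩
      rcases he.2 with h5 | h5
      · rw [← h5, hv.2] at h3; exact absurd h3 (by simp)
      · rw [← h5, hv.2] at h4; exact absurd h4 (by simp)
    rcases hv.1 with h | h
    · exact key T hT h Finset.subset_union_left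
    · exact key T' hT' h Finset.subset_union_right
  have h2 : ∑ v ∈ W, (Hb.filter fun e => inc v e).card
      = ∑ e ∈ Hb, (W.filter fun v => inc v e).card :=
    Finset.sum_card_bipartiteAbove_eq_sum_card_bipartiteBelow (fun v e => inc v e)
  have h3 : ∀ e ∈ Hb, (W.filter fun v => inc v e).card ≤ 2 := by
    intro e _
    calc (W.filter fun v => inc v e).card ≤ ({e.1.1, e.1.2} : Finset (Fin n)).card := by
          apply Finset.card_le_card
          intro v hv
          rw [Finset.mem_filter] at hv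
          rw [Finset.mem_insert, Finset.mem_singleton]
          exact hv.2
      _ ≤ 2 := Finset.card_le_two
  have h4 : W.card * (2 * d) ≤ Hb.card * 2 := by
    calc W.card * (2 * d) = ∑ _v ∈ W, 2 * d := by rw [Finset.sum_const, smul_eq_mul]
      _ ≤ ∑ v ∈ W, (Hb.filter fun e => inc v e).card := Finset.sum_le_sum h1
      _ = ∑ e ∈ Hb, (W.filter fun v => inc v e).card := h2
      _ ≤ ∑ _e ∈ Hb, 2 := Finset.sum_le_sum h3
      _ = Hb.card * 2 := by rw [Finset.sum_const, smul_eq_mul]
  have h5 : bd s H = Hb.card := rfl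
  rw [h5]
  nlinarith

/-- pairs with an endpoint `z` outside `S` -/
theorem bd_root (s : Fin n → Bool) {z : Fin n} (hz : s z = false) {T T' : Finset (Fin n)}
    (hzT : z ∉ T) (hzT' : z ∉ T') :
    (T ∪ T').card + bd s (eIn T ∪ eIn T') ≤ bd s (eIn (insert z T) ∪ eIn (insert z T')) := by
  classical
  set H := eIn (insert z T) ∪ eIn (insert z T') with hH
  set Hb := H.filter (fun e => ¬ (s e.1.1 = true ∧ s e.1.2 = true)) with hHb
  set A := Hb.filter (fun e => inc z e) with hA
  set B := (eIn T ∪ eIn T').filter (fun e => ¬ (s e.1.1 = true ∧ s e.1.2 = true)) with hB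
  have hAcard : (T ∪ T').card ≤ A.card := by
    refine Finset.card_le_card_of_surjOn (fun e => if z = e.1.1 then e.1.2 else e.1.1) ?_
    intro u hu
    rw [Finset.mem_coe, Finset.mem_union] at hu
    have huz : u ≠ z := by
      rintro rfl
      rcases hu with h | h
      · exact hzT h
      · exact hzT' h
    refine ⟨mkE u z huz, ?_, ?_⟩
    · rw [Finset.mem_coe, hA, Finset.mem_filter, hHb, Finset.mem_filter, hH, Finset.mem_union,
        mkE_mem, mkE_mem]
      refine ⟨⟨?_, ?_⟩, ?_⟩
      · rcases hu with h | h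
        · left; exact ⟨Finset.mem_insert_of_mem h, Finset.mem_insert_self _ _⟩
        · right; exact ⟨Finset.mem_insert_of_mem h, Finset.mem_insert_self _ _⟩
      · rintro ⟨h3, h4⟩
        have h5 : inc z (mkE u z huz) := by rw [mkE_inc]; right; rfl
        rcases h5 with h5 | h5
        · rw [← h5, hz] at h3; exact absurd h3 (by simp)
        · rw [← h5, hz] at h4; exact absurd h4 (by simp)
      · rw [mkE_inc]; right; rfl
    · unfold mkE
      by_cases h : u < z
      · rw [dif_pos h]
        simp [huz.symm]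
      · rw [dif_neg h]
        simp
  have hdisj : Disjoint A B := by
    rw [Finset.disjoint_left]
    intro e heA heB
    rw [hA, Finset.mem_filter] at heA
    rw [hB, Finset.mem_filter, Finset.mem_union, mem_eIn, mem_eIn] at heB
    rcases heA.2 with h | h
    · rcases heB.1 with h' | h'
      · rw [← h] at h'; exact hzT h'.1
      · rw [← h] at h'; exact hzT' h'.1
    · rcases heB.1 with h' | h'
      · rw [← h] at h'; exact hzT h'.2
      · rw [← h] at h'; exact hzT' h'.2
  have hsub : A ∪ B ⊆ Hb := by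
    intro e he
    rcases Finset.mem_union.1 he with h | h
    · exact (Finset.mem_filter.1 h).1
    · rw [hB, Finset.mem_filter, Finset.mem_union, mem_eIn, mem_eIn] at h
      rw [hHb, Finset.mem_filter, hH, Finset.mem_union, mem_eIn, mem_eIn]
      refine ⟨?_, h.2⟩
      rcases h.1 with h' | h'
      · left; exact ⟨Finset.mem_insert_of_mem h'.1, Finset.mem_insert_of_mem h'.2⟩
      · right; exact ⟨Finset.mem_insert_of_mem h'.1, Finset.mem_insert_of_mem h'.2⟩
  have h5 := Finset.card_le_card hsub
  rw [Finset.card_union_of_disjoint hdisj] at h5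
  have h6 : bd s (eIn T ∪ eIn T') = B.card := rfl
  have h7 : bd s H = Hb.card := rfl
  rw [h6, h7]
  omega

theorem bd_mono (s : Fin n → Bool) {H H' : Finset (Edge n)} (h : H ⊆ H') : bd s H ≤ bd s H' :=
  Finset.card_le_card (Finset.filter_subset_filter _ h)

/-- no pair is missing if all vertices are in `S` -/
theorem bd_eq_zero (s : Fin n → Bool) {T : Finset (Fin n)} (h : ∀ v ∈ T, s v = true) :
    bd s (eIn T) = 0 := by
  unfold bd
  rw [Finset.card_eq_zero, Finset.filter_eq_empty_iff]
  intro e he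
  rw [mem_eIn] at he
  rw [not_not]
  exact ⟨h _ he.1, h _ he.2⟩

end Pool.Agent.R563.PCl
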