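import Mathlib

set_option autoImplicit false

/-!
# The planted clique model

All expectations are finite sums.
-/

noncomputable section

namespace Pool.Agent.R563.PCl

/-- the pairs `{i, j}` of vertices, `i < j` -/
abbrev Edge (n : ℕ) : Type := {e : Fin n × Fin n // e.1 < e.2}

/-- the probability of the vertex set `S` (given by its indicator `s`), when every vertex is put
into `S` independently with probability `p` -/
def wt {n : ℕ} (p : ℝ) (s : Fin n → Bool) : ℝ := ∏ v, if s v = true then p else 1 - p

/-- the edge indicators of the union of the graph `ω` with the complete graph on `S` -/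
def obs {n : ℕ} (s : Fin n → Bool) (ω : Edge n → Bool) (e : Edge n) : ℝ :=
  if ω e = true ∨ (s e.1.1 = true ∧ s e.1.2 = true) then 1 else 0

/-- expectation of `F(S, Y)` in the planted model: `S` is random with parameter `p`, and `Y` is the
union of an independent `G(n, 1/2)` with the complete graph on `S` -/
def EP (n : ℕ) (p : ℝ) (F : (Fin n → Bool) → (Edge n → ℝ) → ℝ) : ℝ :=
  ∑ s : Fin n → Bool, wt p s *
    ((1 / 2) ^ Fintype.card (Edge n) * ∑ ω : Edge n → Bool, F s (obs s ω))

/-- expectation of `F(Y)` in the null model `G(n, 1/2)` -/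
def EQ (n : ℕ) (F : (Edge n → ℝ) → ℝ) : ℝ :=
  (1 / 2) ^ Fintype.card (Edge n) * ∑ ω : Edge n → Bool, F (fun e => if ω e = true then 1 else 0)

/-- variance in the planted model -/
def VarP (n : ℕ) (p : ℝ) (f : MvPolynomial (Edge n) ℝ) : ℝ :=
  EP n p (fun _ y => (MvPolynomial.eval y f) ^ 2) - (EP n p (fun _ y => MvPolynomial.eval y f)) ^ 2

/-- variance in the null model -/
def VarQ (n : ℕ) (f : MvPolynomial (Edge n) ℝ) : ℝ :=
  EQ n (fun y => (MvPolynomial.eval y f) ^ 2) - (EQ n (fun y => MvPolynomial.eval y f)) ^ 2

/-- strong separation of the planted model with parameters `k n` and the null model -/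
def StronglySeparates (k : ℕ → ℝ) (f : (n : ℕ) → MvPolynomial (Edge n) ℝ) : Prop :=
  (fun n => Real.sqrt (max (VarP n (k n / n) (f n)) (VarQ n (f n)))) =o[Filter.atTop]
    fun n => EP n (k n / n) (fun _ y => MvPolynomial.eval y (f n))
      - EQ n (fun y => MvPolynomial.eval y (f n))

/-- the indicator of the event that the first vertex is in `S` -/
def x1 {n : ℕ} (s : Fin n → Bool) : ℝ := if ∃ h : 0 < n, s ⟨0, h⟩ = true then 1 else 0

/-- the minimum mean squared error of polynomials of degree at most `D` -/
def MMSE (n : ℕ) (p : ℝ) (D : ℕ) : ℝ :=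
  ⨅ f : {f : MvPolynomial (Edge n) ℝ // f.totalDegree ≤ D},
    EP n p (fun s y => (MvPolynomial.eval y f.1 - x1 s) ^ 2)

end Pool.Agent.R563.PCl
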