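import Pool.Agent.R563.PCl.Moments

set_option autoImplicit false

/-! # Detection: the moment bounds -/

noncomputable section

namespace Pool.Agent.R563.PCl

open Finset

variable {n : ℕ}

/-- the number of cliques on `r` vertices -/
def cnt (n r : ℕ) (y : Edge n → ℝ) : ℝ := ∑ T ∈ (univ : Finset (Fin n)).powersetCard r, cl T y

/-- the polynomial counting cliques -/
def cntPoly (n r : ℕ) : MvPolynomial (Edge n) ℝ :=
  ∑ T ∈ (univ : Finset (Fin n)).powersetCard r, ∏ e ∈ eIn T, MvPolynomial.X e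

theorem eval_cntPoly (n r : ℕ) (y : Edge n → ℝ) :
    MvPolynomial.eval y (cntPoly n r) = cnt n r y := by
  unfold cntPoly cnt cl
  rw [map_sum]
  refine Finset.sum_congr rfl fun T _ => ?_
  rw [map_prod]
  refine Finset.prod_congr rfl fun e _ => ?_
  rw [MvPolynomial.eval_X]

theorem card_eIn_le (T : Finset (Fin n)) : (eIn T).card ≤ T.card ^ 2 := by
  classical
  rw [pow_two, ← Finset.card_product]
  refine Finset.card_le_card_of_injOn (fun e => e.1) ?_ ?_
  · intro e he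
    rw [Finset.mem_coe, mem_eIn] at he
    rw [Finset.mem_coe, Finset.mem_product]
    exact he
  · intro e _ e' _ h
    exact Subtype.ext h

theorem totalDegree_cl (T : Finset (Fin n)) :
    (∏ e ∈ eIn T, (MvPolynomial.X e : MvPolynomial (Edge n) ℝ)).totalDegree ≤ T.card ^ 2 := by
  refine (MvPolynomial.totalDegree_finsetProd _ _).trans ?_
  refine le_trans ?_ (card_eIn_le T)
  calc _ ≤ ∑ _e ∈ eIn T, 1 := by
        apply Finset.sum_le_sum
        intro e _
        exact (MvPolynomial.totalDegree_X e).le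
    _ = (eIn T).card := by simp

theorem totalDegree_cntPoly (n r : ℕ) : (cntPoly n r).totalDegree ≤ r ^ 2 := by
  unfold cntPoly
  apply MvPolynomial.totalDegree_finsetSum_le
  intro T hT
  rw [Finset.mem_powersetCard] at hT
  have := totalDegree_cl T
  rw [hT.2] at this
  exact this

theorem EP_cnt_sq {p : ℝ} (h0 : 0 ≤ p) (h1 : p ≤ 1) {d : ℕ} (hr : 2 * d + 1 ≤ n) :
    EP n p (fun _ y => (cnt n (2 * d + 1) y) ^ 2)
      ≤ ((n.choose (2 * d + 1) : ℕ) * (p + (1 / 2) ^ d) ^ (2 * d + 1)) ^ 2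
        * (1 + (2 * d + 1 : ℕ) / ((n - (2 * d + 1 : ℕ) + 1) * (p + (1 / 2) ^ d))) ^ (2 * d + 1) := by
  have hq : (0 : ℝ) < p + (1 / 2) ^ d := by positivity
  set r := 2 * d + 1 with hrdef
  have h2 := sum_two hq (univ : Finset (Fin n)) (r := r) (by simpa using hr)
  rw [Finset.card_univ, Fintype.card_fin] at h2
  refine le_trans ?_ h2
  rw [EP_eq]
  have h3 : ∀ y : Edge n → ℝ, (cnt n r y) ^ 2
      = ∑ T ∈ (univ : Finset (Fin n)).powersetCard r, ∑ T' ∈ (univ : Finset (Fin n)).powersetCard r,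
        cl T y * cl T' y := by
    intro y
    unfold cnt
    rw [pow_two, Finset.sum_mul_sum]
  simp only [h3, EW_sum]
  refine Finset.sum_le_sum fun T hT => Finset.sum_le_sum fun T' hT' => ?_
  rw [Finset.mem_powersetCard] at hT hT'
  exact second_P h0 h1 (by rw [hT.2]) (by rw [hT'.2])

theorem EP_cnt {p : ℝ} (h0 : 0 ≤ p) (h1 : p ≤ 1) (r : ℕ) :
    (n.choose r : ℕ) * p ^ r ≤ EP n p (fun _ y => cnt n r y) := by
  rw [EP_eq]
  unfold cnt
  simp only [EW_sum]
  calc ((n.choose r : ℕ) : ℝ) * p ^ r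
      = ∑ T ∈ (univ : Finset (Fin n)).powersetCard r, p ^ r := by
        rw [Finset.sum_const, Finset.card_powersetCard, Finset.card_univ, Fintype.card_fin,
          nsmul_eq_mul]
    _ ≤ _ := by
        refine Finset.sum_le_sum fun T hT => ?_
        rw [Finset.mem_powersetCard] at hT
        have := first_P h0 h1 T
        rw [hT.2] at this
        exact this

theorem EQ_eq (F : (Edge n → ℝ) → ℝ) :
    EQ n F = EW wh (fun ω : Edge n → Bool => F (obs (fun _ => false) ω)) := by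
  rw [EW_half]
  unfold EQ
  have : ∀ ω : Edge n → Bool, (fun e => if ω e = true then (1 : ℝ) else 0)
      = obs (fun _ => false) ω := by
    intro ω
    funext e
    simp [obs]
  simp only [this]

theorem EQ_cnt_sq {d : ℕ} (hr : 2 * d + 1 ≤ n) (hd : (n : ℝ) ^ 2 * (1 / 2) ^ d ≤ 1) :
    EQ n (fun y => (cnt n (2 * d + 1) y) ^ 2) ≤ 1 := by
  set r := 2 * d + 1 with hrdef
  rw [EQ_eq]
  have h3 : ∀ y : Edge n → ℝ, (cnt n r y) ^ 2
      = ∑ T ∈ (univ : Finset (Fin n)).powersetCard r, ∑ T' ∈ (univ : Finset (Fin n)).powersetCard r,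
        cl T y * cl T' y := by
    intro y
    unfold cnt
    rw [pow_two, Finset.sum_mul_sum]
  simp only [h3, EW_sum]
  have h4 : ∀ T ∈ (univ : Finset (Fin n)).powersetCard r,
      ∀ T' ∈ (univ : Finset (Fin n)).powersetCard r,
      EW wh (fun ω : Edge n → Bool => cl T (obs (fun _ => false) ω) * cl T' (obs (fun _ => false) ω))
        ≤ ((1 / 2) ^ d) ^ r := by
    intro T hT T' hT'
    rw [Finset.mem_powersetCard] at hT hT'
    refine (second_Q (by rw [hT.2]) (by rw [hT'.2])).trans ?_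
    apply pow_le_pow_of_le_one (by positivity)
    · exact pow_le_one₀ (by norm_num) (by norm_num)
    · rw [← hT.2]; exact Finset.card_le_card Finset.subset_union_left
  refine (Finset.sum_le_sum fun T hT => Finset.sum_le_sum fun T' hT' => h4 T hT T' hT').trans ?_
  simp only [Finset.sum_const, Finset.card_powersetCard, Finset.card_univ, Fintype.card_fin,
    nsmul_eq_mul]
  have h5 : ((n.choose r : ℕ) : ℝ) ≤ (n : ℝ) ^ r := by exact_mod_cast Nat.choose_le_pow n r
  calc ((n.choose r : ℕ) : ℝ) * ((n.choose r : ℕ) * ((1 / 2) ^ d) ^ r)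
      ≤ (n : ℝ) ^ r * ((n : ℝ) ^ r * ((1 / 2) ^ d) ^ r) := by gcongr
    _ = ((n : ℝ) ^ 2 * (1 / 2) ^ d) ^ r := by rw [mul_pow]; ring
    _ ≤ 1 := pow_le_one₀ (by positivity) hd

/-- the correction factor of the second moments -/
def MM (N : ℝ) (p : ℝ) (d : ℕ) : ℝ :=
  (1 + (1 / 2) ^ d / p) ^ (2 * (2 * d + 1))
    * (1 + (2 * d + 1 : ℕ) / ((N - (2 * d + 1 : ℕ) + 1) * (p + (1 / 2) ^ d))) ^ (2 * d + 1)

theorem EP_cnt_sq' {p : ℝ} (h0 : 0 < p) (h1 : p ≤ 1) {d : ℕ} (hr : 2 * d + 1 ≤ n) :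
    EP n p (fun _ y => (cnt n (2 * d + 1) y) ^ 2)
      ≤ ((n.choose (2 * d + 1) : ℕ) * p ^ (2 * d + 1)) ^ 2 * MM n p d := by
  refine (EP_cnt_sq h0.le h1 hr).trans (le_of_eq ?_)
  unfold MM
  rw [← mul_assoc]
  congr 1
  have h2 : (p + (1 / 2) ^ d) ^ (2 * d + 1)
      = p ^ (2 * d + 1) * (1 + (1 / 2) ^ d / p) ^ (2 * d + 1) := by
    rw [← mul_pow]
    congr 1
    field_simp
  rw [h2]
  ring

/-- bounds for the correction factor -/
theorem MM_ge_one {N p : ℝ} {d : ℕ} (h0 : 0 < p) (hN : (2 * d + 1 : ℕ) ≤ N) : 1 ≤ MM N p d := by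
  unfold MM
  have h1 : (0 : ℝ) ≤ (1 / 2) ^ d / p := by positivity
  have h2 : (0 : ℝ) ≤ (2 * d + 1 : ℕ) / ((N - (2 * d + 1 : ℕ) + 1) * (p + (1 / 2) ^ d)) := by
    apply div_nonneg (by positivity)
    apply mul_nonneg (by linarith) (by positivity)
  exact one_le_mul_of_one_le_of_one_le (one_le_pow₀ (by linarith)) (one_le_pow₀ (by linarith))

/-- the exponent -/
def xx (N p : ℝ) (d : ℕ) : ℝ :=
  2 * (2 * d + 1 : ℕ) * ((1 / 2) ^ d / p) + (2 * d + 1 : ℕ) ^ 2 / ((N - (2 * d + 1 : ℕ) + 1) * p)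

theorem xx_nonneg {N p : ℝ} {d : ℕ} (h0 : 0 < p) (hN : (2 * d + 1 : ℕ) ≤ N) : 0 ≤ xx N p d := by
  unfold xx
  have h3 : (0 : ℝ) ≤ (2 * d + 1 : ℕ) ^ 2 / ((N - (2 * d + 1 : ℕ) + 1) * p) := by
    apply div_nonneg (by positivity)
    apply mul_nonneg (by linarith) h0.le
  have h4 : (0 : ℝ) ≤ 2 * (2 * d + 1 : ℕ) * ((1 / 2) ^ d / p) := by positivity
  linarith

theorem MM_le_exp {N p : ℝ} {d : ℕ} (h0 : 0 < p) (hN : (2 * d + 1 : ℕ) ≤ N) :
    MM N p d ≤ Real.exp (xx N p d) := by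
  unfold MM xx
  rw [Real.exp_add]
  have hN' : (0 : ℝ) < N - (2 * d + 1 : ℕ) + 1 := by linarith
  have h1 : (0 : ℝ) ≤ (1 / 2) ^ d / p := by positivity
  have h2 : (0 : ℝ) ≤ (2 * d + 1 : ℕ) / ((N - (2 * d + 1 : ℕ) + 1) * (p + (1 / 2) ^ d)) := by
    apply div_nonneg (by positivity)
    apply mul_nonneg (by linarith) (by positivity)
  apply mul_le_mul
  · calc (1 + (1 / 2) ^ d / p) ^ (2 * (2 * d + 1))
        ≤ (Real.exp ((1 / 2) ^ d / p)) ^ (2 * (2 * d + 1)) := by
          apply pow_le_pow_left₀ (by linarith)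
          rw [add_comm]; exact Real.add_one_le_exp _
      _ = _ := by
          rw [← Real.exp_nat_mul]
          congr 1
          push_cast
          ring
  · calc (1 + (2 * d + 1 : ℕ) / ((N - (2 * d + 1 : ℕ) + 1) * (p + (1 / 2) ^ d))) ^ (2 * d + 1)
        ≤ (Real.exp ((2 * d + 1 : ℕ) / ((N - (2 * d + 1 : ℕ) + 1) * (p + (1 / 2) ^ d))))
            ^ (2 * d + 1) := by
          apply pow_le_pow_left₀ (by linarith)
          rw [add_comm]; exact Real.add_one_le_exp _
      _ = Real.exp ((2 * d + 1 : ℕ) * ((2 * d + 1 : ℕ)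
            / ((N - (2 * d + 1 : ℕ) + 1) * (p + (1 / 2) ^ d)))) := by
          rw [← Real.exp_nat_mul]
      _ ≤ _ := by
          apply Real.exp_le_exp.2
          rw [pow_two, mul_div_assoc]
          apply mul_le_mul_of_nonneg_left _ (by positivity)
          apply div_le_div_of_nonneg_left (by positivity) (by positivity)
          apply mul_le_mul_of_nonneg_left _ hN'.le
          have : (0 : ℝ) ≤ (1 / 2) ^ d := by positivity
          linarith
  · apply pow_nonneg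
    linarith
  · exact (Real.exp_pos _).le

end Pool.Agent.R563.PCl
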