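import Pool.Agent.R563.PCl.Asym

set_option autoImplicit false

/-! # Detection and recovery -/

noncomputable section

namespace Pool.Agent.R563.PCl

open Finset Filter Asymptotics Topology

variable {n : ℕ}

theorem mu_ge {n r : ℕ} (hr : 1 ≤ r) {κ : ℝ} (hκ : 0 < κ) (hn : 1 ≤ n)
    (hN : (n : ℝ) / 3 + r ≤ n) (h1 : 1 ≤ κ / (3 * r)) : κ / (3 * r) ≤ mu n r (κ / n) := by
  have hn0 : (0 : ℝ) < n := by exact_mod_cast hn
  have hr0 : (0 : ℝ) < r := by exact_mod_cast hr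
  have hrn : r ≤ n := by
    have : (r : ℝ) ≤ n := by
      have : (0 : ℝ) ≤ (n : ℝ) / 3 := by positivity
      linarith
    exact_mod_cast this
  have h2 := Nat.pow_le_choose (α := ℝ) r n
  have h3 : ((n + 1 - r : ℕ) : ℝ) = (n : ℝ) + 1 - r := by
    rw [Nat.cast_sub (by omega)]; push_cast; ring
  have h4 : ((r.factorial : ℕ) : ℝ) ≤ (r : ℝ) ^ r := by exact_mod_cast Nat.factorial_le_pow r
  have h5 : (0 : ℝ) < (r.factorial : ℕ) := by exact_mod_cast Nat.factorial_pos r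
  have h6 : (κ / (3 * r)) ^ r ≤ mu n r (κ / n) := by
    unfold mu
    calc (κ / (3 * r)) ^ r = (((n : ℝ) / 3) ^ r / (r : ℝ) ^ r) * (κ / n) ^ r := by
          rw [← div_pow, ← mul_pow]
          congr 1
          field_simp
      _ ≤ (((n + 1 - r : ℕ) : ℝ) ^ r / (r.factorial : ℕ)) * (κ / n) ^ r := by
          apply mul_le_mul_of_nonneg_right _ (by positivity)
          apply div_le_div₀ (by positivity) _ h5 h4
          apply pow_le_pow_left₀ (by positivity)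
          rw [h3]; linarith
      _ ≤ _ := by
          apply mul_le_mul_of_nonneg_right h2 (by positivity)
  refine le_trans ?_ h6
  calc κ / (3 * r) = (κ / (3 * r)) ^ 1 := (pow_one _).symm
    _ ≤ _ := pow_le_pow_right₀ h1 hr

theorem EQ_nonneg_sq (f : (Edge n → ℝ) → ℝ) : 2 * EQ n f ≤ 1 + EQ n (fun y => (f y) ^ 2) := by
  rw [EQ_eq, EQ_eq, ← EW_mul]
  have h1 : (1 : ℝ) = EW wh (fun _ : Edge n → Bool => (1 : ℝ)) := (EW_const hwh 1).symm
  conv_rhs => rw [h1]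
  rw [← EW_add]
  apply EW_mono wh_nonneg
  intro ω
  nlinarith [sq_nonneg (f (obs (fun _ => false) ω) - 1)]

/-- the detection bound for fixed `n` -/
theorem detect_bound {n : ℕ} (hn : 1 ≤ n) {κ : ℝ} (hκ : 0 < κ) (hκn : κ ≤ n)
    (hN : (n : ℝ) / 3 + rr n ≤ n) {t δ : ℝ} (ht : (rr n : ℝ) ^ 4 / κ = t) (h1 : t ≤ 1 / 20)
    (hδ : 0 < δ) (h2 : t ≤ δ ^ 2 / 80) :
    Real.sqrt (max (VarP n (κ / n) (cntPoly n (rr n))) (VarQ n (cntPoly n (rr n))))
      ≤ δ * (EP n (κ / n) (fun _ y => MvPolynomial.eval y (cntPoly n (rr n)))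
        - EQ n (fun y => MvPolynomial.eval y (cntPoly n (rr n)))) := by
  have hn0 : (0 : ℝ) < n := by exact_mod_cast hn
  have hn1 : (1 : ℝ) ≤ n := by exact_mod_cast hn
  have hp0 : 0 < κ / n := by positivity
  have hp1 : κ / n ≤ 1 := by rw [div_le_one hn0]; exact hκn
  have hr1 := rr_pos n
  have hrn : 2 * dd n + 1 ≤ n := by
    have : (rr n : ℝ) ≤ n := by
      have : (0 : ℝ) ≤ (n : ℝ) / 3 := by positivity
      linarith
    exact_mod_cast this
  set r : ℝ := (rr n : ℝ) with hrdef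
  have ht0 : 0 < t := by rw [← ht]; positivity
  -- powers of `r`
  have hr4 : r ^ 4 = t * κ := by rw [← ht]; field_simp
  have hr2 : r ^ 2 ≤ t * κ := by
    rw [← hr4]; exact pow_le_pow_right₀ hr1 (by norm_num)
  have hr1' : r ≤ t * κ := by
    calc r = r ^ 1 := (pow_one r).symm
      _ ≤ r ^ 4 := pow_le_pow_right₀ hr1 (by norm_num)
      _ = t * κ := hr4
  have hs : 10 * r ^ 2 / κ ≤ 10 * t := by
    rw [div_le_iff₀ hκ]; nlinarith
  have hs5 : 5 * r ^ 2 / κ ≤ 1 := by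
    rw [div_le_iff₀ hκ]; nlinarith
  have hMM := MM_le hn hκ (N := (n : ℝ)) hN hs5
  have hmu : 1 / (3 * t) ≤ κ / (3 * r) := by
    rw [div_le_div_iff₀ (by positivity) (by positivity)]
    nlinarith
  have hmu1 : (1 : ℝ) ≤ 1 / (3 * t) := by
    rw [le_div_iff₀ (by positivity)]; linarith
  have hmu2 := mu_ge (r := rr n) (by unfold rr; omega) hκ hn hN (hmu1.trans hmu)
  set μ := mu n (rr n) (κ / n) with hμdef
  have hμ : 1 / (3 * t) ≤ μ := hmu.trans hmu2
  have hμ0 : 0 < μ := by linarith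
  have hμt : 1 ≤ 3 * t * μ := by
    rw [div_le_iff₀ (by positivity)] at hμ
    linarith
  have hμ6 : 6 ≤ μ := by nlinarith
  -- moments
  have hP2 : EP n (κ / n) (fun _ y => (MvPolynomial.eval y (cntPoly n (rr n))) ^ 2)
      ≤ μ ^ 2 * (1 + 10 * r ^ 2 / κ) := by
    simp only [eval_cntPoly]
    refine (EP_cnt_sq' hp0 hp1 hrn).trans ?_
    exact mul_le_mul_of_nonneg_left hMM (by positivity)
  have hP1 : μ ≤ EP n (κ / n) (fun _ y => MvPolynomial.eval y (cntPoly n (rr n))) := by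
    simp only [eval_cntPoly]
    exact EP_cnt hp0.le hp1 (rr n)
  have hQ2 : EQ n (fun y => (MvPolynomial.eval y (cntPoly n (rr n))) ^ 2) ≤ 1 := by
    simp only [eval_cntPoly]
    apply EQ_cnt_sq hrn
    have h3 := half_dd n
    have h4 : (n : ℝ) ^ 2 ≤ (n : ℝ) ^ 4 := pow_le_pow_right₀ hn1 (by norm_num)
    calc (n : ℝ) ^ 2 * (1 / 2) ^ dd n ≤ (n : ℝ) ^ 4 * (1 / 2) ^ dd n := by gcongr
      _ = (1 / 2) ^ dd n * (n : ℝ) ^ 4 := mul_comm _ _
      _ ≤ 1 := h3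
  have hQ1 := EQ_nonneg_sq (n := n) (fun y => MvPolynomial.eval y (cntPoly n (rr n)))
  set P1 := EP n (κ / n) (fun _ y => MvPolynomial.eval y (cntPoly n (rr n))) with hP1def
  set Q1 := EQ n (fun y => MvPolynomial.eval y (cntPoly n (rr n))) with hQ1def
  have hVP : VarP n (κ / n) (cntPoly n (rr n)) ≤ μ ^ 2 * (10 * t) := by
    unfold VarP
    rw [← hP1def]
    have h3 : μ ^ 2 ≤ P1 ^ 2 := pow_le_pow_left₀ hμ0.le hP1 2
    have h4 : μ ^ 2 * (1 + 10 * r ^ 2 / κ) ≤ μ ^ 2 * (1 + 10 * t) :=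
      mul_le_mul_of_nonneg_left (by linarith) (by positivity)
    nlinarith
  have hVQ : VarQ n (cntPoly n (rr n)) ≤ 1 := by
    unfold VarQ
    nlinarith [sq_nonneg Q1]
  have hmax : max (VarP n (κ / n) (cntPoly n (rr n))) (VarQ n (cntPoly n (rr n)))
      ≤ μ ^ 2 * (10 * t) + 1 := by
    apply max_le
    · linarith
    · have : 0 ≤ μ ^ 2 * (10 * t) := by positivity
      linarith
  have hfin : μ ^ 2 * (10 * t) + 1 ≤ (δ * (μ / 2)) ^ 2 := by
    have h3 : μ ^ 2 * (10 * t) ≤ μ ^ 2 * (δ ^ 2 / 8) := by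
      apply mul_le_mul_of_nonneg_left _ (by positivity)
      linarith
    have h4 : (1 : ℝ) ≤ μ ^ 2 * (δ ^ 2 / 8) := by
      have h5 : (1 : ℝ) ≤ (3 * t * μ) ^ 2 := one_le_pow₀ hμt
      have h6 : (3 * t * μ) ^ 2 = μ ^ 2 * (9 * t * t) := by ring
      rw [h6] at h5
      have h7 : t * t ≤ 1 / 20 * t := mul_le_mul_of_nonneg_right h1 ht0.le
      have h8 : 9 * t * t ≤ δ ^ 2 / 8 := by
        have h9 : 9 * t * t = 9 * (t * t) := by ring
        have h10 : 0 ≤ δ ^ 2 := sq_nonneg _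
        rw [h9]
        linarith
      exact h5.trans (mul_le_mul_of_nonneg_left h8 (by positivity))
    have h11 : (δ * (μ / 2)) ^ 2 = μ ^ 2 * (δ ^ 2 / 8) + μ ^ 2 * (δ ^ 2 / 8) := by ring
    rw [h11]
    linarith
  calc Real.sqrt (max (VarP n (κ / n) (cntPoly n (rr n))) (VarQ n (cntPoly n (rr n))))
      ≤ Real.sqrt ((δ * (μ / 2)) ^ 2) := Real.sqrt_le_sqrt (hmax.trans hfin)
    _ = δ * (μ / 2) := Real.sqrt_sq (by positivity)
    _ ≤ δ * (P1 - Q1) := by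
        apply mul_le_mul_of_nonneg_left _ hδ.le
        linarith

theorem exists_blocks {n : ℕ} (z : Fin n) : ∃ B1 B2 : Finset (Fin n), Disjoint B1 B2 ∧
    z ∉ B1 ∧ z ∉ B2 ∧ B1.card = (n - 1) / 2 ∧ B2.card = (n - 1) / 2 := by
  classical
  have hU : ((univ : Finset (Fin n)).erase z).card = n - 1 := by
    rw [Finset.card_erase_of_mem (Finset.mem_univ _), Finset.card_univ, Fintype.card_fin]
  obtain ⟨B1, hB1, hc1⟩ := Finset.exists_subset_card_eq (s := (univ : Finset (Fin n)).erase z)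
    (n := (n - 1) / 2) (by rw [hU]; omega)
  have hU2 : (((univ : Finset (Fin n)).erase z) \ B1).card = (n - 1) - (n - 1) / 2 := by
    rw [Finset.card_sdiff_of_subset hB1, hU, hc1]
  obtain ⟨B2, hB2, hc2⟩ := Finset.exists_subset_card_eq
    (s := ((univ : Finset (Fin n)).erase z) \ B1) (n := (n - 1) / 2) (by rw [hU2]; omega)
  refine ⟨B1, B2, ?_, ?_, ?_, hc1, hc2⟩
  · rw [Finset.disjoint_right]
    intro v hv
    exact (Finset.mem_sdiff.1 (hB2 hv)).2
  · intro h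
    exact Finset.notMem_erase _ _ (hB1 h)
  · intro h
    exact Finset.notMem_erase _ _ (Finset.mem_sdiff.1 (hB2 h)).1

theorem EP_nonneg {p : ℝ} (h0 : 0 ≤ p) (h1 : p ≤ 1) {F : (Fin n → Bool) → (Edge n → ℝ) → ℝ}
    (h : ∀ s y, 0 ≤ F s y) : 0 ≤ EP n p F := by
  rw [EP_eq]
  have h2 : (0 : ℝ) = EW (wp p) (fun _ : Fin n → Bool => (0 : ℝ)) := (EW_const (hwp p) 0).symm
  rw [h2]
  apply EW_mono (wp_nonneg h0 h1)
  intro s
  have h3 : (0 : ℝ) = EW wh (fun _ : Edge n → Bool => (0 : ℝ)) := (EW_const hwh 0).symm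
  rw [h3]
  exact EW_mono wh_nonneg fun ω => h _ _

theorem MMSE_nonneg {p : ℝ} (h0 : 0 ≤ p) (h1 : p ≤ 1) (D : ℕ) : 0 ≤ MMSE n p D := by
  unfold MMSE
  apply Real.iInf_nonneg
  intro f
  exact EP_nonneg h0 h1 fun s y => sq_nonneg _

theorem MMSE_le {p : ℝ} (h0 : 0 ≤ p) (h1 : p ≤ 1) {D : ℕ} (f : MvPolynomial (Edge n) ℝ)
    (hf : f.totalDegree ≤ D) :
    MMSE n p D ≤ EP n p (fun s y => (MvPolynomial.eval y f - x1 s) ^ 2) := by
  unfold MMSE
  refine ciInf_le (f := fun f : {f : MvPolynomial (Edge n) ℝ // f.totalDegree ≤ D} =>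
    EP n p (fun s y => (MvPolynomial.eval y f.1 - x1 s) ^ 2)) ?_ ⟨f, hf⟩
  refine ⟨0, ?_⟩
  rintro x ⟨g, rfl⟩
  exact EP_nonneg h0 h1 fun s y => sq_nonneg _

/-- the recovery bound for fixed `n` -/
theorem recover_bound {n : ℕ} (hn : 12 ≤ n) {κ : ℝ} (hκ : 0 < κ) (hκn : κ ≤ n / 2)
    (hN : (12 : ℝ) * rr n ≤ n) {t : ℝ} (ht : (rr n : ℝ) ^ 4 / κ = t) (h1 : t ≤ 1 / 20)
    {D : ℕ} (hD : 2 * (rr n + 1) ^ 2 ≤ D) :
    n * MMSE n (κ / n) D ≤ 100 * t + 60 / n := by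
  have hn0 : (0 : ℝ) < n := by
    have : 0 < n := by omega
    exact_mod_cast this
  have hn1 : (12 : ℝ) ≤ n := by exact_mod_cast hn
  have hp0 : 0 < κ / n := by positivity
  have hp1 : κ / n ≤ 1 / 2 := by rw [div_le_iff₀ hn0]; linarith
  have hr1 := rr_pos n
  set r : ℝ := (rr n : ℝ) with hrdef
  have ht0 : 0 < t := by rw [← ht]; positivity
  have hr4 : r ^ 4 = t * κ := by rw [← ht]; field_simp
  have hr2 : r ^ 2 ≤ t * κ := by
    rw [← hr4]; exact pow_le_pow_right₀ hr1 (by norm_num)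
  have hs : 10 * r ^ 2 / κ ≤ 10 * t := by
    rw [div_le_iff₀ hκ]; nlinarith
  have hs5 : 5 * r ^ 2 / κ ≤ 1 := by
    rw [div_le_iff₀ hκ]; nlinarith
  set m := (n - 1) / 2 with hm
  have hm2 : (n : ℝ) / 2 - 1 ≤ m := by
    have : n ≤ 2 * m + 2 := by omega
    have : (n : ℝ) ≤ 2 * m + 2 := by exact_mod_cast this
    linarith
  have hmN : (n : ℝ) / 3 + rr n ≤ (m : ℝ) := by
    rw [← hrdef]
    linarith
  have hMM := MM_le (by omega : 1 ≤ n) hκ (N := (m : ℝ)) hmN hs5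
  have hrm : 2 * dd n + 1 ≤ m := by
    have : (rr n : ℝ) ≤ m := by
      have : (0 : ℝ) ≤ (n : ℝ) / 3 := by positivity
      linarith
    exact_mod_cast this
  let z : Fin n := ⟨0, by omega⟩
  obtain ⟨B1, B2, hB, hz1, hz2, hc1, hc2⟩ := exists_blocks z
  have hz : ∀ s : Fin n → Bool, x1 s = if s z = true then 1 else 0 := by
    intro s
    unfold x1
    by_cases h : s z = true
    · rw [if_pos h, if_pos ⟨by omega, h⟩]
    · rw [if_neg h, if_neg]
      rintro ⟨_, h'⟩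
      exact h h'
  have hM1 : 1 ≤ MM m (κ / n) (dd n) := MM_ge_one hp0 (by exact_mod_cast hrm)
  have herr := est_error hp0 hp1 hB hz1 hz2 hc1 hc2 hrm hz
  have h3 : MMSE n (κ / n) D
      ≤ EP n (κ / n) (fun s y => (est (κ / n) z B1 B2 (2 * dd n + 1) y - x1 s) ^ 2) := by
    have h4 := MMSE_le hp0.le (by linarith : κ / n ≤ 1) (D := D)
      (estPoly (κ / n) z B1 B2 (2 * dd n + 1))
      ((totalDegree_estPoly _ _ _ _ _).trans hD)
    simp only [eval_estPoly] at h4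
    exact h4
  -- numbers
  set M := MM m (κ / n) (dd n) with hMdef
  have hM11 : M ≤ 2 := by linarith
  have hMt : M - 1 ≤ 10 * r ^ 2 / κ := by linarith
  have hA : (n : ℝ) * (κ / n * (M - 1) ^ 2) ≤ 100 * t := by
    have h5 : (M - 1) ^ 2 ≤ (10 * r ^ 2 / κ) ^ 2 :=
      pow_le_pow_left₀ (by linarith) hMt 2
    calc (n : ℝ) * (κ / n * (M - 1) ^ 2) = κ * (M - 1) ^ 2 := by field_simp
      _ ≤ κ * (10 * r ^ 2 / κ) ^ 2 := mul_le_mul_of_nonneg_left h5 hκ.le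
      _ = 100 * (r ^ 4 / κ) := by field_simp; ring
      _ = 100 * t := by rw [ht]
  set θ : ℝ := (1 / 2) ^ (2 * dd n + 1) with hθ
  have hθ0 : 0 < θ := by positivity
  have hθn : θ * (n : ℝ) ^ 2 ≤ 1 := by
    have h6 := half_dd n
    have h7 : θ ≤ (1 / 2) ^ dd n := by
      rw [hθ]
      exact half_pow_le (by omega)
    have h8 : (n : ℝ) ^ 2 ≤ (n : ℝ) ^ 4 := pow_le_pow_right₀ (by linarith) (by norm_num)
    calc θ * (n : ℝ) ^ 2 ≤ (1 / 2) ^ dd n * (n : ℝ) ^ 4 := by gcongr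
      _ ≤ 1 := h6
  have hθn' : θ * n ≤ 1 / n := by
    rw [le_div_iff₀ hn0]
    calc θ * n * n = θ * (n : ℝ) ^ 2 := by ring
      _ ≤ 1 := hθn
  have hθ1 : θ ≤ 1 := by rw [hθ]; exact pow_le_one₀ (by norm_num) (by norm_num)
  have hB' : (n : ℝ) * (6 * (θ * M) + 6 * (θ * M) ^ 2) ≤ 60 / n := by
    have h9 : 6 * (θ * M) + 6 * (θ * M) ^ 2 ≤ 36 * θ := by
      have h10 : θ * M ≤ 2 * θ := by nlinarith
      have h11 : 0 ≤ θ * M := by positivity
      have h12 : (θ * M) ^ 2 ≤ (2 * θ) ^ 2 := pow_le_pow_left₀ h11 h10 2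
      nlinarith
    calc (n : ℝ) * (6 * (θ * M) + 6 * (θ * M) ^ 2) ≤ n * (36 * θ) :=
          mul_le_mul_of_nonneg_left h9 hn0.le
      _ = 36 * (θ * n) := by ring
      _ ≤ 36 * (1 / n) := by gcongr
      _ ≤ 60 / n := by
          rw [← mul_div_assoc, mul_one]
          gcongr
          norm_num
  calc n * MMSE n (κ / n) D
      ≤ n * (κ / n * (M - 1) ^ 2 + 6 * (θ * M) + 6 * (θ * M) ^ 2) :=
        mul_le_mul_of_nonneg_left (h3.trans herr) hn0.le
    _ = n * (κ / n * (M - 1) ^ 2) + n * (6 * (θ * M) + 6 * (θ * M) ^ 2) := by ring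
    _ ≤ _ := add_le_add hA hB'

/-- the main theorem -/
theorem main {a : ℝ} (ha : 0 < a) (ha1 : a < 1) {k : ℕ → ℝ} (hk0 : ∀ n, 0 ≤ k n)
    (hkn : ∀ n, k n ≤ n) (hk : k =Θ[atTop] fun n : ℕ => (n : ℝ) ^ a) :
    ∃ C : ℝ,
      (∃ f : (n : ℕ) → MvPolynomial (Edge n) ℝ,
        (∀ n, (f n).totalDegree ≤ ⌈C * (Real.log n) ^ 2⌉₊) ∧ StronglySeparates k f) ∧
      (fun n : ℕ => MMSE n (k n / n) ⌈C * (Real.log n) ^ 2⌉₊) =o[atTop] fun n : ℕ => 1 / (n : ℝ) := by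
  obtain ⟨hkpos, hklim⟩ := tendsto_main ha hk0 hk
  obtain ⟨_, hnlim⟩ := tendsto_main (a := 1) one_pos (k := fun n : ℕ => (n : ℝ))
    (fun n => by positivity) (by simp only [Real.rpow_one]; exact isTheta_refl _ _)
  have hsmall : ∀ δ : ℝ, 0 < δ → ∀ᶠ n : ℕ in atTop, (rr n : ℝ) ^ 4 / k n ≤ δ :=
    fun δ hδ => (hklim.eventually (ge_mem_nhds hδ))
  have hN : ∀ᶠ n : ℕ in atTop, (12 : ℝ) * rr n ≤ n := by
    filter_upwards [hnlim.eventually (ge_mem_nhds (by norm_num : (0 : ℝ) < 1 / 12)),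
      eventually_ge_atTop 1] with n h1 h2
    have hn0 : (0 : ℝ) < n := by exact_mod_cast h2
    rw [div_le_iff₀ hn0] at h1
    have hr := rr_pos n
    have h3 : (rr n : ℝ) ≤ (rr n : ℝ) ^ 4 := by
      calc (rr n : ℝ) = (rr n : ℝ) ^ 1 := (pow_one _).symm
        _ ≤ _ := pow_le_pow_right₀ hr (by norm_num)
    linarith
  have hhalf : ∀ᶠ n : ℕ in atTop, k n ≤ n / 2 := by
    have h1 : k =o[atTop] fun n : ℕ => (n : ℝ) := by
      refine hk.1.trans_isLittleO ?_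
      have h2 : (fun x : ℝ => x ^ a) =o[atTop] fun x : ℝ => x := by
        refine isLittleO_of_tendsto' ?_ ?_
        · filter_upwards [eventually_gt_atTop 0] with x hx h
          exact absurd h hx.ne'
        · refine (tendsto_rpow_neg_atTop (by linarith : 0 < 1 - a)).congr' ?_
          filter_upwards [eventually_gt_atTop 0] with x hx
          rw [show -(1 - a) = a - 1 by ring, Real.rpow_sub hx, Real.rpow_one]
      exact h2.comp_tendsto tendsto_natCast_atTop_atTop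
    have h3 := h1.def (by norm_num : (0 : ℝ) < 1 / 2)
    filter_upwards [h3] with n hn
    rw [Real.norm_of_nonneg (hk0 n), Real.norm_of_nonneg (Nat.cast_nonneg n)] at hn
    linarith
  have hdeg : ∀ n : ℕ, 3 ≤ n → 2 * (rr n + 1) ^ 2 ≤ ⌈(1352 : ℝ) * (Real.log n) ^ 2⌉₊ := by
    intro n hn
    have h1 := rr_le hn
    have h2 : ((2 * (rr n + 1) ^ 2 : ℕ) : ℝ) ≤ 1352 * (Real.log n) ^ 2 := by
      push_cast
      have h3 : ((rr n : ℝ) + 1) ^ 2 ≤ (26 * Real.log n) ^ 2 :=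
        pow_le_pow_left₀ (by positivity) h1 2
      nlinarith
    exact_mod_cast h2.trans (Nat.le_ceil _)
  refine ⟨1352, ⟨fun n => if 3 ≤ n then cntPoly n (rr n) else 0, ?_, ?_⟩, ?_⟩
  · intro n
    simp only
    split_ifs with h
    · refine (totalDegree_cntPoly n (rr n)).trans (le_trans ?_ (hdeg n h))
      calc rr n ^ 2 ≤ (rr n + 1) ^ 2 := Nat.pow_le_pow_left (Nat.le_succ _) 2
        _ ≤ 2 * (rr n + 1) ^ 2 := by omega
    · rw [MvPolynomial.totalDegree_zero]; exact Nat.zero_le _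
  · unfold StronglySeparates
    rw [isLittleO_iff]
    intro δ hδ
    have hδ' : 0 < min (1 / 20) (δ ^ 2 / 80) := lt_min (by norm_num) (by positivity)
    filter_upwards [hkpos, hsmall _ hδ', hN, eventually_ge_atTop 3] with n h1 h2 h3 h4
    simp only [h4, if_true]
    have hn0 : (0 : ℝ) < n := by
      have : 0 < n := by omega
      exact_mod_cast this
    have h5 := detect_bound (by omega : 1 ≤ n) h1 (hkn n) (by linarith) rfl
      (h2.trans (min_le_left _ _)) hδ (h2.trans (min_le_right _ _))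
    rw [Real.norm_of_nonneg (Real.sqrt_nonneg _)]
    refine h5.trans (mul_le_mul_of_nonneg_left (le_abs_self _) hδ.le)
  · rw [isLittleO_iff]
    intro δ hδ
    have hδ' : 0 < min (1 / 20) (δ / 200) := lt_min (by norm_num) (by positivity)
    have hlim2 : Tendsto (fun n : ℕ => (60 : ℝ) / n) atTop (𝓝 0) :=
      tendsto_const_div_atTop_nhds_zero_nat 60
    filter_upwards [hkpos, hsmall _ hδ', hN, eventually_ge_atTop 12, hhalf,
      hlim2.eventually (ge_mem_nhds (by positivity : (0 : ℝ) < δ / 2))] with n h1 h2 h3 h4 h5 h6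
    have hn0 : (0 : ℝ) < n := by
      have : 0 < n := by omega
      exact_mod_cast this
    have h7 := recover_bound h4 h1 h5 h3 rfl (h2.trans (min_le_left _ _)) (hdeg n (by omega))
    have h8 : (rr n : ℝ) ^ 4 / k n ≤ δ / 200 := h2.trans (min_le_right _ _)
    have hp1 : k n / n ≤ 1 := by rw [div_le_one hn0]; exact hkn n
    have h9 := MMSE_nonneg (n := n) (div_nonneg h1.le hn0.le) hp1 ⌈(1352 : ℝ) * (Real.log n) ^ 2⌉₊
    rw [Real.norm_of_nonneg h9, Real.norm_of_nonneg (by positivity), mul_one_div,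
      le_div_iff₀ hn0]
    linarith

end Pool.Agent.R563.PCl
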