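import Pool.Agent.R563.PCl.Clique

set_option autoImplicit false

/-! # First and second moments -/

noncomputable section

namespace Pool.Agent.R563.PCl

open Finset

section general

variable {ι : Type} [Fintype ι] [DecidableEq ι]

theorem EW_prodOn {w : ι → Bool → ℝ} (hw : ∀ i, w i true + w i false = 1) (A : Finset ι)
    (h : ι → Bool → ℝ) : EW w (fun x => ∏ i ∈ A, h i (x i))
      = ∏ i ∈ A, (w i true * h i true + w i false * h i false) := by
  have h1 : (fun x : ι → Bool => ∏ i ∈ A, h i (x i))
      = fun x => ∏ i, (fun i b => if i ∈ A then h i b else 1) i (x i) := by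
    funext x
    simp only
    rw [Finset.prod_ite_mem, Finset.univ_inter]
  rw [h1, EW_prod w (fun i b => if i ∈ A then h i b else 1)]
  have h2 : ∀ i, w i true * (if i ∈ A then h i true else 1)
      + w i false * (if i ∈ A then h i false else 1)
      = if i ∈ A then (w i true * h i true + w i false * h i false) else 1 := by
    intro i
    split_ifs
    · rfl
    · rw [mul_one, mul_one, hw]
  rw [Finset.prod_congr rfl fun i _ => h2 i, Finset.prod_ite_mem, Finset.univ_inter]

end general

variable {n : ℕ}

theorem hwh {ι : Type} : ∀ i : ι, wh i true + wh i false = 1 := by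
  intro i; unfold wh; norm_num

theorem hwp {ι : Type} (p : ℝ) : ∀ i : ι, wp p i true + wp p i false = 1 := by
  intro i; simp [wp]

theorem wh_nonneg {ι : Type} : ∀ (i : ι) (b : Bool), 0 ≤ wh i b := by
  intro i b; unfold wh; norm_num

theorem wp_nonneg {ι : Type} {p : ℝ} (h0 : 0 ≤ p) (h1 : p ≤ 1) :
    ∀ (i : ι) (b : Bool), 0 ≤ wp p i b := by
  intro i b; unfold wp; split_ifs <;> linarith

/-- `θ` to the number of vertices of `U` outside `S` -/
theorem pow_out (s : Fin n → Bool) (U : Finset (Fin n)) (θ : ℝ) :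
    θ ^ (out s U).card = ∏ v ∈ U, if s v = true then 1 else θ := by
  unfold out
  rw [← Finset.prod_const, Finset.prod_filter]
  refine Finset.prod_congr rfl fun v _ => ?_
  cases s v <;> simp

theorem half_pow_le {a b : ℕ} (h : b ≤ a) : ((1 : ℝ) / 2) ^ a ≤ (1 / 2) ^ b :=
  pow_le_pow_of_le_one (by norm_num) (by norm_num) h

theorem cl_mul (s : Fin n → Bool) (T T' : Finset (Fin n)) :
    EW wh (fun ω => cl T (obs s ω) * cl T' (obs s ω)) = (1 / 2) ^ bd s (eIn T ∪ eIn T') := by
  unfold cl
  simp only [obs_mul]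
  exact mono_obs s _

theorem cl_one (s : Fin n → Bool) (T : Finset (Fin n)) :
    EW wh (fun ω => cl T (obs s ω)) = (1 / 2) ^ bd s (eIn T) := mono_obs s _

/-- second moments, planted model -/
theorem second_P {p : ℝ} (h0 : 0 ≤ p) (h1 : p ≤ 1) {d : ℕ} {T T' : Finset (Fin n)}
    (hT : 2 * d + 1 ≤ T.card) (hT' : 2 * d + 1 ≤ T'.card) :
    EW (wp p) (fun s => EW wh (fun ω => cl T (obs s ω) * cl T' (obs s ω)))
      ≤ (p + (1 / 2) ^ d) ^ (T ∪ T').card := by
  have hθ : (0 : ℝ) ≤ (1 / 2) ^ d := by positivity
  let g : Fin n → Bool → ℝ := fun _ b => if b = true then (1 : ℝ) else (1 / 2) ^ d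
  calc _ ≤ EW (wp p) (fun s => ∏ v ∈ T ∪ T', g v (s v)) := by
        apply EW_mono (wp_nonneg h0 h1)
        intro s
        rw [cl_mul]
        simp only [g]
        rw [← pow_out, ← pow_mul]
        exact half_pow_le (bd_ge s hT hT')
    _ = ∏ _v ∈ T ∪ T', (p + (1 - p) * (1 / 2) ^ d) := by
        rw [EW_prodOn (hwp p)]
        refine Finset.prod_congr rfl fun v _ => ?_
        simp [wp, g]
    _ ≤ _ := by
        rw [Finset.prod_const]
        apply pow_le_pow_left₀
        · have : 0 ≤ (1 - p) * (1 / 2 : ℝ) ^ d := mul_nonneg (by linarith) hθ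
          linarith
        · nlinarith

/-- first moments, planted model -/
theorem first_P {p : ℝ} (h0 : 0 ≤ p) (h1 : p ≤ 1) (T : Finset (Fin n)) :
    p ^ T.card ≤ EW (wp p) (fun s => EW wh (fun ω => cl T (obs s ω))) := by
  let g : Fin n → Bool → ℝ := fun _ b => if b = true then (1 : ℝ) else 0
  calc p ^ T.card = EW (wp p) (fun s => ∏ v ∈ T, g v (s v)) := by
        rw [EW_prodOn (hwp p), ← Finset.prod_const]
        refine Finset.prod_congr rfl fun v _ => ?_
        simp [wp, g]
    _ ≤ _ := by
        apply EW_mono (wp_nonneg h0 h1)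
        intro s
        rw [cl_one]
        simp only [g]
        rw [Finset.prod_boole]
        split_ifs with h
        · rw [bd_eq_zero s h]; simp
        · positivity

/-- second moments, null model -/
theorem second_Q {d : ℕ} {T T' : Finset (Fin n)}
    (hT : 2 * d + 1 ≤ T.card) (hT' : 2 * d + 1 ≤ T'.card) :
    EW wh (fun ω => cl T (obs (fun _ => false) ω) * cl T' (obs (fun _ => false) ω))
      ≤ ((1 / 2) ^ d) ^ (T ∪ T').card := by
  rw [cl_mul, ← pow_mul]
  have h := bd_ge (fun _ => false) hT hT'
  have h2 : out (fun _ => false) (T ∪ T') = T ∪ T' := by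
    unfold out
    simp
  rw [h2] at h
  exact half_pow_le h

/-- second moments, first vertex in `S` -/
theorem second_R {p : ℝ} (h0 : 0 ≤ p) (h1 : p ≤ 1) {d : ℕ} {z : Fin n} {T T' : Finset (Fin n)}
    (hT : 2 * d + 1 ≤ T.card) (hT' : 2 * d + 1 ≤ T'.card) (hz : z ∉ T) (hz' : z ∉ T') :
    EW (wp p) (fun s => (if s z = true then 1 else 0) *
      EW wh (fun ω => cl (insert z T) (obs s ω) * cl (insert z T') (obs s ω)))
      ≤ p * (p + (1 / 2) ^ d) ^ (T ∪ T').card := by
  classical
  have hθ : (0 : ℝ) ≤ (1 / 2) ^ d := by positivity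
  have hzU : z ∉ T ∪ T' := by
    rw [Finset.mem_union]; tauto
  let g : Fin n → Bool → ℝ := fun v b => if v = z then (if b = true then 1 else 0)
    else if b = true then (1 : ℝ) else (1 / 2) ^ d
  calc _ ≤ EW (wp p) (fun s => ∏ v ∈ insert z (T ∪ T'), g v (s v)) := by
        apply EW_mono (wp_nonneg h0 h1)
        intro s
        rw [cl_mul, Finset.prod_insert hzU]
        have h2 : ∏ v ∈ T ∪ T', g v (s v) = ((1 : ℝ) / 2) ^ (d * (out s (T ∪ T')).card) := by
          rw [pow_mul, pow_out]
          refine Finset.prod_congr rfl fun v hv => ?_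
          have : v ≠ z := fun h => hzU (h ▸ hv)
          simp only [g, this, if_false]
        have h3 : g z (s z) = if s z = true then 1 else 0 := by simp [g]
        rw [h2, h3]
        apply mul_le_mul_of_nonneg_left _ (by split_ifs <;> norm_num)
        apply half_pow_le
        refine (bd_ge s hT hT').trans (bd_mono s ?_)
        apply Finset.union_subset_union
        · intro e he
          rw [mem_eIn] at he ⊢
          exact ⟨Finset.mem_insert_of_mem he.1, Finset.mem_insert_of_mem he.2⟩
        · intro e he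
          rw [mem_eIn] at he ⊢
          exact ⟨Finset.mem_insert_of_mem he.1, Finset.mem_insert_of_mem he.2⟩
    _ = p * ∏ _v ∈ T ∪ T', (p + (1 - p) * (1 / 2) ^ d) := by
        rw [EW_prodOn (hwp p), Finset.prod_insert hzU]
        congr 1
        · simp [wp, g]
        · refine Finset.prod_congr rfl fun v hv => ?_
          have : v ≠ z := fun h => hzU (h ▸ hv)
          simp [wp, g, this]
    _ ≤ _ := by
        rw [Finset.prod_const]
        apply mul_le_mul_of_nonneg_left _ h0
        apply pow_le_pow_left₀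
        · have : 0 ≤ (1 - p) * (1 / 2 : ℝ) ^ d := mul_nonneg (by linarith) hθ
          linarith
        · nlinarith

/-- first moments, first vertex in `S` -/
theorem first_R {p : ℝ} (h0 : 0 ≤ p) (h1 : p ≤ 1) {z : Fin n} {T : Finset (Fin n)}
    (hz : z ∉ T) :
    p * p ^ T.card ≤ EW (wp p) (fun s => (if s z = true then 1 else 0) *
      EW wh (fun ω => cl (insert z T) (obs s ω))) := by
  classical
  let g : Fin n → Bool → ℝ := fun _ b => if b = true then (1 : ℝ) else 0
  calc p * p ^ T.card = EW (wp p) (fun s => ∏ v ∈ insert z T, g v (s v)) := by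
        rw [EW_prodOn (hwp p), Finset.prod_insert hz, ← Finset.prod_const]
        congr 1
        · simp [wp, g]
        · refine Finset.prod_congr rfl fun v _ => ?_
          simp [wp, g]
    _ ≤ _ := by
        apply EW_mono (wp_nonneg h0 h1)
        intro s
        rw [cl_one]
        simp only [g]
        rw [Finset.prod_boole]
        by_cases h : ∀ v ∈ insert z T, s v = true
        · rw [if_pos h, bd_eq_zero s h, if_pos (h z (Finset.mem_insert_self _ _))]; simp
        · rw [if_neg h]
          split_ifs <;> positivity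

/-- second moments, first vertex outside `S` -/
theorem second_R0 {p : ℝ} (h0 : 0 ≤ p) (h1 : p ≤ 1) {d : ℕ} {z : Fin n} {T T' : Finset (Fin n)}
    (hT : 2 * d + 1 ≤ T.card) (hT' : 2 * d + 1 ≤ T'.card) (hz : z ∉ T) (hz' : z ∉ T') :
    EW (wp p) (fun s => (if s z = true then 0 else 1) *
      EW wh (fun ω => cl (insert z T) (obs s ω) * cl (insert z T') (obs s ω)))
      ≤ (1 / 2) ^ T.card * (p + (1 / 2) ^ d) ^ (T ∪ T').card := by
  have hθ : (0 : ℝ) ≤ (1 / 2) ^ d := by positivity
  let g : Fin n → Bool → ℝ := fun _ b => if b = true then (1 : ℝ) else (1 / 2) ^ d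
  calc _ ≤ EW (wp p) (fun s => (1 / 2) ^ T.card * ∏ v ∈ T ∪ T', g v (s v)) := by
        apply EW_mono (wp_nonneg h0 h1)
        intro s
        rw [cl_mul]
        simp only [g]
        rw [← pow_out, ← pow_mul]
        cases hs : s z
        · have h2 := bd_root s hs hz hz'
          have h3 := bd_ge s hT hT'
          have h4 : T.card ≤ (T ∪ T').card := Finset.card_le_card Finset.subset_union_left
          rw [← pow_add]
          simp only [Bool.false_eq_true, if_false, one_mul]
          exact half_pow_le (by omega)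
        · simp only [if_true, zero_mul]
          positivity
    _ = (1 / 2) ^ T.card * ∏ _v ∈ T ∪ T', (p + (1 - p) * (1 / 2) ^ d) := by
        rw [EW_mul, EW_prodOn (hwp p)]
        congr 1
        refine Finset.prod_congr rfl fun v _ => ?_
        simp [wp, g]
    _ ≤ _ := by
        rw [Finset.prod_const]
        apply mul_le_mul_of_nonneg_left _ (by positivity)
        apply pow_le_pow_left₀
        · have : 0 ≤ (1 - p) * (1 / 2 : ℝ) ^ d := mul_nonneg (by linarith) hθ
          linarith
        · nlinarith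

/-! ### The sums over pairs of sets -/

theorem choose_step (N j : ℕ) (hj : j + 1 ≤ N) :
    ((N.choose j : ℕ) : ℝ) ≤ (j + 1) / (N - j) * (N.choose (j + 1) : ℕ) := by
  have h1 : (N.choose (j + 1) : ℝ) * (j + 1) = N.choose j * (N - j) := by
    have := Nat.choose_succ_right_eq N j
    have h2 : ((N - j : ℕ) : ℝ) = (N : ℝ) - j := by
      rw [Nat.cast_sub (by omega)]
    rw [← h2]
    exact_mod_cast this
  have h3 : (0 : ℝ) < N - j := by
    have : (j : ℝ) + 1 ≤ N := by exact_mod_cast hj
    linarith
  rw [div_mul_eq_mul_div, le_div_iff₀ h3]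
  linarith

theorem choose_sub_le (N r : ℕ) (hr : r ≤ N) : ∀ m ≤ r,
    ((N.choose (r - m) : ℕ) : ℝ) ≤ (N.choose r : ℕ) * (r / (N - r + 1)) ^ m := by
  intro m
  induction m with
  | zero => intro _; simp
  | succ m ih =>
    intro hm
    have h1 := ih (by omega)
    obtain ⟨j, hj⟩ : ∃ j, r - m = j + 1 := ⟨r - m - 1, by omega⟩
    have h2 : r - (m + 1) = j := by omega
    rw [h2]
    rw [hj] at h1
    have h3 := choose_step N j (by omega)
    have hrN : (r : ℝ) ≤ N := by exact_mod_cast hr
    have hjr : (j : ℝ) + 1 ≤ r := by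
      have : j + 1 ≤ r := by omega
      exact_mod_cast this
    have h4 : ((j : ℝ) + 1) / (N - j) ≤ r / (N - r + 1) := by
      apply div_le_div₀ (by positivity) hjr (by linarith) (by linarith)
    have h5 : (0 : ℝ) ≤ r / (N - r + 1) := by
      apply div_nonneg (by positivity) (by linarith)
    calc ((N.choose j : ℕ) : ℝ) ≤ (j + 1) / (N - j) * (N.choose (j + 1) : ℕ) := h3
      _ ≤ (r / (N - r + 1)) * ((N.choose r : ℕ) * (r / (N - r + 1)) ^ m) :=
          mul_le_mul h4 h1 (by positivity) h5
      _ = (N.choose r : ℕ) * (r / (N - r + 1)) ^ (m + 1) := by ring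

theorem sum_one {q : ℝ} (hq : 0 < q) (B T : Finset (Fin n)) {r : ℕ} (hr : r ≤ B.card)
    (hTr : T.card = r) :
    ∑ T' ∈ B.powersetCard r, q ^ (T' \ T).card
      ≤ (B.card.choose r : ℕ) * q ^ r * (1 + r / ((B.card - r + 1) * q)) ^ r := by
  classical
  have hN : (0 : ℝ) < (B.card : ℝ) - r + 1 := by
    have : (r : ℝ) ≤ B.card := by exact_mod_cast hr
    linarith
  rw [← Finset.sum_fiberwise_of_maps_to (t := T.powerset) (g := fun T' => T' ∩ T)
    (fun T' _ => Finset.mem_powerset.2 Finset.inter_subset_right)]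
  have h1 : ∀ A ∈ T.powerset, ∑ T' ∈ (B.powersetCard r).filter (fun T' => T' ∩ T = A),
      q ^ (T' \ T).card ≤ (B.card.choose r : ℕ) * q ^ r * (r / ((B.card - r + 1) * q)) ^ A.card := by
    intro A hA
    rw [Finset.mem_powerset] at hA
    have hAr : A.card ≤ r := by rw [← hTr]; exact Finset.card_le_card hA
    have h2 : ∀ T' ∈ (B.powersetCard r).filter (fun T' => T' ∩ T = A),
        (T' \ T).card = r - A.card := by
      intro T' hT'
      rw [Finset.mem_filter, Finset.mem_powersetCard] at hT'
      have h3 := Finset.card_sdiff_add_card_inter T' T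
      rw [hT'.2, hT'.1.2] at h3
      omega
    rw [Finset.sum_congr rfl fun T' hT' => by rw [h2 T' hT'], Finset.sum_const, nsmul_eq_mul]
    have h4 : ((B.powersetCard r).filter (fun T' => T' ∩ T = A)).card
        ≤ B.card.choose (r - A.card) := by
      rw [← Finset.card_powersetCard]
      refine Finset.card_le_card_of_injOn (fun T' => T' \ T) ?_ ?_
      · intro T' hT'
        have h5 := h2 T' hT'
        rw [Finset.mem_coe, Finset.mem_filter, Finset.mem_powersetCard] at hT'
        rw [Finset.mem_coe, Finset.mem_powersetCard]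
        exact ⟨(Finset.sdiff_subset).trans hT'.1.1, h5⟩
      · intro T1 hT1 T2 hT2 heq
        rw [Finset.mem_coe, Finset.mem_filter] at hT1 hT2
        rw [← Finset.sdiff_union_inter T1 T, ← Finset.sdiff_union_inter T2 T, hT1.2, hT2.2]
        simp only at heq
        rw [heq]
    have h5 := choose_sub_le B.card r hr A.card hAr
    calc (((B.powersetCard r).filter (fun T' => T' ∩ T = A)).card : ℝ) * q ^ (r - A.card)
        ≤ (B.card.choose (r - A.card) : ℕ) * q ^ (r - A.card) := by
          gcongr
      _ ≤ ((B.card.choose r : ℕ) * (r / (B.card - r + 1)) ^ A.card) * q ^ (r - A.card) := by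
          gcongr
      _ = (B.card.choose r : ℕ) * q ^ r * (r / ((B.card - r + 1) * q)) ^ A.card := by
          have h6 : q ^ r = q ^ (r - A.card) * q ^ A.card := by
            rw [← pow_add]; congr 1; omega
          rw [h6]
          have h7 : (r : ℝ) / (((B.card : ℝ) - r + 1) * q) = (r / ((B.card : ℝ) - r + 1)) / q := by
            rw [div_div]
          rw [h7, div_pow (_ / _) q]
          field_simp
  refine (Finset.sum_le_sum h1).trans (le_of_eq ?_)
  rw [← Finset.mul_sum]
  congr 1
  rw [Finset.sum_powerset_apply_card (fun m => ((r : ℝ) / (((B.card : ℝ) - r + 1) * q)) ^ m), hTr]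
  rw [add_comm (1 : ℝ) _, add_pow]
  refine Finset.sum_congr rfl fun m _ => ?_
  rw [one_pow, mul_one, nsmul_eq_mul, mul_comm]

theorem sum_two {q : ℝ} (hq : 0 < q) (B : Finset (Fin n)) {r : ℕ} (hr : r ≤ B.card) :
    ∑ T ∈ B.powersetCard r, ∑ T' ∈ B.powersetCard r, q ^ (T ∪ T').card
      ≤ ((B.card.choose r : ℕ) * q ^ r) ^ 2 * (1 + r / ((B.card - r + 1) * q)) ^ r := by
  classical
  have h1 : ∀ T ∈ B.powersetCard r, ∑ T' ∈ B.powersetCard r, q ^ (T ∪ T').card
      ≤ q ^ r * ((B.card.choose r : ℕ) * q ^ r * (1 + r / ((B.card - r + 1) * q)) ^ r) := by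
    intro T hT
    rw [Finset.mem_powersetCard] at hT
    have h2 : ∀ T' : Finset (Fin n), q ^ (T ∪ T').card = q ^ r * q ^ (T' \ T).card := by
      intro T'
      rw [← pow_add, ← hT.2]
      congr 1
      rw [Finset.union_comm, ← Finset.card_sdiff_add_card, add_comm]
    simp only [h2]
    rw [← Finset.mul_sum]
    exact mul_le_mul_of_nonneg_left (sum_one hq B T hr hT.2) (by positivity)
  refine (Finset.sum_le_sum h1).trans (le_of_eq ?_)
  rw [Finset.sum_const, Finset.card_powersetCard, nsmul_eq_mul]
  ring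

end Pool.Agent.R563.PCl
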