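import Pool.Agent.R563.PCl.Detect

set_option autoImplicit false

/-! # Recovery: a product of two block estimators -/

noncomputable section

namespace Pool.Agent.R563.PCl

open Finset

variable {n : ℕ}

/-- expectation on the event that the indicator of `z` is `b` -/
def RB (p : ℝ) (z : Fin n) (b : Bool) (F : (Edge n → ℝ) → ℝ) : ℝ :=
  EW (wp p) (fun s => (if s z = b then 1 else 0) * EW wh (fun ω => F (obs s ω)))

theorem RB_add (p : ℝ) (z : Fin n) (b : Bool) (F G : (Edge n → ℝ) → ℝ) :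
    RB p z b (fun y => F y + G y) = RB p z b F + RB p z b G := by
  unfold RB
  rw [← EW_add]
  congr 1
  funext s
  rw [EW_add wh (fun ω => F (obs s ω)) (fun ω => G (obs s ω))]
  ring

theorem RB_mul (p : ℝ) (z : Fin n) (b : Bool) (c : ℝ) (F : (Edge n → ℝ) → ℝ) :
    RB p z b (fun y => c * F y) = c * RB p z b F := by
  unfold RB
  rw [← EW_mul]
  congr 1
  funext s
  rw [EW_mul wh c (fun ω => F (obs s ω))]
  ring

theorem RB_sum {κ : Type} (p : ℝ) (z : Fin n) (b : Bool) (S : Finset κ)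
    (F : κ → (Edge n → ℝ) → ℝ) :
    RB p z b (fun y => ∑ k ∈ S, F k y) = ∑ k ∈ S, RB p z b (F k) := by
  unfold RB
  rw [← EW_sum]
  congr 1
  funext s
  rw [EW_sum wh S (fun k ω => F k (obs s ω)), Finset.mul_sum]

theorem RB_mono {p : ℝ} (h0 : 0 ≤ p) (h1 : p ≤ 1) (z : Fin n) (b : Bool)
    {F G : (Edge n → ℝ) → ℝ} (h : ∀ y, F y ≤ G y) : RB p z b F ≤ RB p z b G := by
  unfold RB
  apply EW_mono (wp_nonneg h0 h1)
  intro s
  apply mul_le_mul_of_nonneg_left _ (by split_ifs <;> norm_num)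
  exact EW_mono wh_nonneg fun ω => h _

theorem EW_ind (p : ℝ) (z : Fin n) (b : Bool) :
    EW (wp p) (fun s : Fin n → Bool => if s z = b then (1 : ℝ) else 0) = wp p z b := by
  classical
  have h := EW_prodOn (hwp p) ({z} : Finset (Fin n)) (fun _ c => if c = b then (1 : ℝ) else 0)
  simp only [Finset.prod_singleton] at h
  rw [h]
  cases b <;> simp [wp]

theorem RB_const (p : ℝ) (z : Fin n) (b : Bool) (c : ℝ) :
    RB p z b (fun _ => c) = c * wp p z b := by
  unfold RB
  rw [← EW_ind p z b, ← EW_mul]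
  congr 1
  funext s
  rw [EW_const hwh, mul_comm]

theorem EP_split (p : ℝ) (z : Fin n) (hz : ∀ s : Fin n → Bool, x1 s = if s z = true then 1 else 0)
    (f : (Edge n → ℝ) → ℝ) :
    EP n p (fun s y => (f y - x1 s) ^ 2)
      = RB p z true (fun y => (1 - f y) ^ 2) + RB p z false (fun y => (f y) ^ 2) := by
  rw [EP_eq]
  unfold RB
  rw [← EW_add]
  congr 1
  funext s
  rw [hz]
  cases hs : s z
  · simp
  · simp only [if_true, one_mul, Bool.true_eq_false, if_false, zero_mul, add_zero]
    congr 1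
    funext ω
    ring

/-- dependence on the pairs in `H` only -/
def DepOn (H : Finset (Edge n)) (F : (Edge n → ℝ) → ℝ) : Prop :=
  ∀ y y' : Edge n → ℝ, (∀ e ∈ H, y e = y' e) → F y = F y'

theorem obs_congr {s s' : Fin n → Bool} {ω ω' : Edge n → Bool} {e : Edge n}
    (h1 : s e.1.1 = s' e.1.1) (h2 : s e.1.2 = s' e.1.2) (h3 : ω e = ω' e) :
    obs s ω e = obs s' ω' e := by
  unfold obs
  rw [h1, h2, h3]

theorem RB_eq_update (p : ℝ) (z : Fin n) (b : Bool) (g : (Fin n → Bool) → ℝ) :
    EW (wp p) (fun s => (if s z = b then 1 else 0) * g s)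
      = wp p z b * EW (wp p) (fun s => g (Function.update s z b)) := by
  classical
  have h1 : (fun s : Fin n → Bool => (if s z = b then (1 : ℝ) else 0) * g s)
      = fun s => (if s z = b then 1 else 0) * g (Function.update s z b) := by
    funext s
    by_cases h : s z = b
    · rw [← h, Function.update_eq_self]
    · rw [if_neg h, zero_mul, zero_mul]
  rw [h1, EW_indep (hwp p) (fun v => v = z), EW_ind]
  · intro x y hxy
    rw [hxy z rfl]
  · intro x y hxy
    congr 1
    funext v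
    by_cases hv : v = z
    · subst hv; simp
    · rw [Function.update_of_ne hv, Function.update_of_ne hv, hxy v hv]

theorem RB_indep (p : ℝ) {z : Fin n} (b : Bool) {B1 B2 : Finset (Fin n)} (hB : Disjoint B1 B2)
    (hz1 : z ∉ B1) (hz2 : z ∉ B2) {G1 G2 : (Edge n → ℝ) → ℝ}
    (h1 : DepOn (eIn (insert z B1)) G1) (h2 : DepOn (eIn (insert z B2)) G2) :
    wp p z b * RB p z b (fun y => G1 y * G2 y) = RB p z b G1 * RB p z b G2 := by
  classical
  have hin : ∀ s : Fin n → Bool, EW wh (fun ω => G1 (obs s ω) * G2 (obs s ω))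
      = EW wh (fun ω => G1 (obs s ω)) * EW wh (fun ω => G2 (obs s ω)) := by
    intro s
    apply EW_indep hwh (fun e => e ∈ eIn (insert z B1))
    · intro ω ω' h
      exact h1 _ _ fun e he => obs_congr rfl rfl (h e he)
    · intro ω ω' h
      refine h2 _ _ fun e he => obs_congr rfl rfl (h e ?_)
      intro he'
      rw [mem_eIn] at he he'
      have key : ∀ v, v ∈ insert z B1 → v ∈ insert z B2 → v = z := by
        intro v hv hv'
        rw [Finset.mem_insert] at hv hv'
        rcases hv with hv | hv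
        · exact hv
        · rcases hv' with hv' | hv'
          · exact hv'
          · exact absurd hv' (Finset.disjoint_left.1 hB hv)
      have h3 := key _ he'.1 he.1
      have h4 := key _ he'.2 he.2
      have h5 := e.2
      rw [h3, h4] at h5
      exact lt_irrefl _ h5
  unfold RB
  simp only [hin]
  rw [RB_eq_update, RB_eq_update, RB_eq_update]
  have hout : EW (wp p) (fun s => EW wh (fun ω => G1 (obs (Function.update s z b) ω))
        * EW wh (fun ω => G2 (obs (Function.update s z b) ω)))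
      = EW (wp p) (fun s => EW wh (fun ω => G1 (obs (Function.update s z b) ω)))
        * EW (wp p) (fun s => EW wh (fun ω => G2 (obs (Function.update s z b) ω))) := by
    apply EW_indep (hwp p) (fun v => v ∈ B1)
    · intro s s' h
      congr 1
      funext ω
      apply h1
      intro e he
      rw [mem_eIn] at he
      have key : ∀ v ∈ insert z B1, Function.update s z b v = Function.update s' z b v := by
        intro v hv
        by_cases hvz : v = z
        · subst hvz; simp
        · rw [Function.update_of_ne hvz, Function.update_of_ne hvz]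
          rw [Finset.mem_insert] at hv
          exact h v (hv.resolve_left hvz)
      exact obs_congr (key _ he.1) (key _ he.2) rfl
    · intro s s' h
      congr 1
      funext ω
      apply h2
      intro e he
      rw [mem_eIn] at he
      have key : ∀ v ∈ insert z B2, Function.update s z b v = Function.update s' z b v := by
        intro v hv
        by_cases hvz : v = z
        · subst hvz; simp
        · rw [Function.update_of_ne hvz, Function.update_of_ne hvz]
          rw [Finset.mem_insert] at hv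
          exact h v (Finset.disjoint_right.1 hB (hv.resolve_left hvz))
      exact obs_congr (key _ he.1) (key _ he.2) rfl
  rw [hout]
  ring

/-! ### One block -/

/-- the number of cliques on `z` and `r` vertices of `B` -/
def blk (z : Fin n) (B : Finset (Fin n)) (r : ℕ) (y : Edge n → ℝ) : ℝ :=
  ∑ T ∈ B.powersetCard r, cl (insert z T) y

theorem blk_dep (z : Fin n) (B : Finset (Fin n)) (r : ℕ) : DepOn (eIn (insert z B)) (blk z B r) := by
  intro y y' h
  unfold blk
  refine Finset.sum_congr rfl fun T hT => ?_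
  unfold cl
  refine Finset.prod_congr rfl fun e he => h e ?_
  rw [Finset.mem_powersetCard] at hT
  rw [mem_eIn] at he ⊢
  exact ⟨Finset.insert_subset_insert _ hT.1 he.1, Finset.insert_subset_insert _ hT.1 he.2⟩

/-- the normalization -/
def mu (N r : ℕ) (p : ℝ) : ℝ := (N.choose r : ℕ) * p ^ r

theorem mu_pos {N r : ℕ} {p : ℝ} (h : r ≤ N) (h0 : 0 < p) : 0 < mu N r p := by
  unfold mu
  have : 0 < N.choose r := Nat.choose_pos h
  positivity

theorem RB_blk {p : ℝ} (h0 : 0 ≤ p) (h1 : p ≤ 1) {z : Fin n} {B : Finset (Fin n)} (hz : z ∉ B)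
    (r : ℕ) : p * mu B.card r p ≤ RB p z true (blk z B r) := by
  have h2 : RB p z true (blk z B r)
      = ∑ T ∈ B.powersetCard r, RB p z true (fun y => cl (insert z T) y) := by
    rw [← RB_sum]; rfl
  rw [h2]
  calc p * mu B.card r p = ∑ T ∈ B.powersetCard r, p * p ^ r := by
        rw [Finset.sum_const, Finset.card_powersetCard, nsmul_eq_mul]
        unfold mu
        ring
    _ ≤ _ := by
        refine Finset.sum_le_sum fun T hT => ?_
        rw [Finset.mem_powersetCard] at hT
        have := first_R h0 h1 (fun h => hz (hT.1 h) : z ∉ T)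
        rw [hT.2] at this
        exact this

theorem blk_sq (z : Fin n) (B : Finset (Fin n)) (r : ℕ) (y : Edge n → ℝ) :
    (blk z B r y) ^ 2 = ∑ T ∈ B.powersetCard r, ∑ T' ∈ B.powersetCard r,
      cl (insert z T) y * cl (insert z T') y := by
  unfold blk
  rw [pow_two, Finset.sum_mul_sum]

theorem MM_eq {N : ℕ} {p : ℝ} {d : ℕ} (h0 : 0 < p) :
    ((N.choose (2 * d + 1) : ℕ) * (p + (1 / 2) ^ d) ^ (2 * d + 1)) ^ 2
        * (1 + (2 * d + 1 : ℕ) / ((N - (2 * d + 1 : ℕ) + 1) * (p + (1 / 2) ^ d))) ^ (2 * d + 1)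
      = (mu N (2 * d + 1) p) ^ 2 * MM N p d := by
  unfold MM mu
  rw [← mul_assoc]
  congr 1
  have h2 : (p + (1 / 2) ^ d) ^ (2 * d + 1)
      = p ^ (2 * d + 1) * (1 + (1 / 2) ^ d / p) ^ (2 * d + 1) := by
    rw [← mul_pow]
    congr 1
    field_simp
  rw [h2]
  ring

theorem RB_blk_sq_true {p : ℝ} (h0 : 0 < p) (h1 : p ≤ 1) {z : Fin n} {B : Finset (Fin n)}
    (hz : z ∉ B) {d : ℕ} (hr : 2 * d + 1 ≤ B.card) :
    RB p z true (fun y => (blk z B (2 * d + 1) y) ^ 2)
      ≤ p * ((mu B.card (2 * d + 1) p) ^ 2 * MM B.card p d) := by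
  rw [← MM_eq h0]
  have hq : (0 : ℝ) < p + (1 / 2) ^ d := by positivity
  refine le_trans ?_ (mul_le_mul_of_nonneg_left (sum_two hq B hr) h0.le)
  simp only [blk_sq, RB_sum, Finset.mul_sum]
  refine Finset.sum_le_sum fun T hT => Finset.sum_le_sum fun T' hT' => ?_
  rw [Finset.mem_powersetCard] at hT hT'
  exact second_R h0.le h1 (by rw [hT.2]) (by rw [hT'.2]) (fun h => hz (hT.1 h))
    (fun h => hz (hT'.1 h))

theorem RB_blk_sq_false {p : ℝ} (h0 : 0 < p) (h1 : p ≤ 1) {z : Fin n} {B : Finset (Fin n)}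
    (hz : z ∉ B) {d : ℕ} (hr : 2 * d + 1 ≤ B.card) :
    RB p z false (fun y => (blk z B (2 * d + 1) y) ^ 2)
      ≤ (1 / 2) ^ (2 * d + 1) * ((mu B.card (2 * d + 1) p) ^ 2 * MM B.card p d) := by
  rw [← MM_eq h0]
  have hq : (0 : ℝ) < p + (1 / 2) ^ d := by positivity
  refine le_trans ?_ (mul_le_mul_of_nonneg_left (sum_two hq B hr) (by positivity))
  simp only [blk_sq, RB_sum, Finset.mul_sum]
  refine Finset.sum_le_sum fun T hT => Finset.sum_le_sum fun T' hT' => ?_
  rw [Finset.mem_powersetCard] at hT hT'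
  have h := second_R0 h0.le h1 (d := d) (by rw [hT.2]) (by rw [hT'.2]) (fun h => hz (hT.1 h))
    (fun h => hz (hT'.1 h) : z ∉ T')
  rw [hT.2] at h
  refine le_trans (le_of_eq ?_) h
  unfold RB
  congr 1
  funext s
  cases s z <;> simp

/-! ### The estimator -/

/-- the normalized block count -/
def wblk (p : ℝ) (z : Fin n) (B : Finset (Fin n)) (r : ℕ) (y : Edge n → ℝ) : ℝ :=
  (mu B.card r p)⁻¹ * blk z B r y

theorem RB_one_sub {p : ℝ} (h0 : 0 < p) (h1 : p ≤ 1) {z : Fin n} {B : Finset (Fin n)}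
    (hz : z ∉ B) {d : ℕ} (hr : 2 * d + 1 ≤ B.card) :
    RB p z true (fun y => (1 - wblk p z B (2 * d + 1) y) ^ 2) ≤ p * (MM B.card p d - 1) := by
  have hmu := mu_pos hr h0
  have h2 : (fun y => (1 - wblk p z B (2 * d + 1) y) ^ 2)
      = fun y => ((1 : ℝ) + (-2 * (mu B.card (2 * d + 1) p)⁻¹) * blk z B (2 * d + 1) y)
        + ((mu B.card (2 * d + 1) p)⁻¹) ^ 2 * (blk z B (2 * d + 1) y) ^ 2 := by
    funext y
    unfold wblk
    ring
  rw [h2, RB_add p z true (fun y => (1 : ℝ) + (-2 * (mu B.card (2 * d + 1) p)⁻¹)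
      * blk z B (2 * d + 1) y) (fun y => ((mu B.card (2 * d + 1) p)⁻¹) ^ 2
      * (blk z B (2 * d + 1) y) ^ 2),
    RB_add p z true (fun _ => (1 : ℝ)) (fun y => (-2 * (mu B.card (2 * d + 1) p)⁻¹)
      * blk z B (2 * d + 1) y), RB_const,
    RB_mul p z true (-2 * (mu B.card (2 * d + 1) p)⁻¹) (blk z B (2 * d + 1)),
    RB_mul p z true (((mu B.card (2 * d + 1) p)⁻¹) ^ 2) (fun y => (blk z B (2 * d + 1) y) ^ 2)]
  have h3 := RB_blk h0.le h1 hz (2 * d + 1)
  have h4 := RB_blk_sq_true h0 h1 hz hr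
  have h5 : wp p z true = p := by simp [wp]
  rw [h5]
  have h6 : (mu B.card (2 * d + 1) p)⁻¹ * (p * mu B.card (2 * d + 1) p)
      ≤ (mu B.card (2 * d + 1) p)⁻¹ * RB p z true (blk z B (2 * d + 1)) :=
    mul_le_mul_of_nonneg_left h3 (by positivity)
  have h7 := mul_le_mul_of_nonneg_left h4
    (by positivity : (0 : ℝ) ≤ ((mu B.card (2 * d + 1) p)⁻¹) ^ 2)
  have h8 : (mu B.card (2 * d + 1) p)⁻¹ * (p * mu B.card (2 * d + 1) p) = p := by
    field_simp
  have h9 : ((mu B.card (2 * d + 1) p)⁻¹) ^ 2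
      * (p * ((mu B.card (2 * d + 1) p) ^ 2 * MM B.card p d)) = p * MM B.card p d := by
    field_simp
  rw [h8] at h6
  rw [h9] at h7
  nlinarith

theorem RB_sq_false {p : ℝ} (h0 : 0 < p) (h1 : p ≤ 1) {z : Fin n} {B : Finset (Fin n)}
    (hz : z ∉ B) {d : ℕ} (hr : 2 * d + 1 ≤ B.card) :
    RB p z false (fun y => (wblk p z B (2 * d + 1) y) ^ 2)
      ≤ (1 / 2) ^ (2 * d + 1) * MM B.card p d := by
  have hmu := mu_pos hr h0
  have h2 : (fun y => (wblk p z B (2 * d + 1) y) ^ 2)
      = fun y => ((mu B.card (2 * d + 1) p)⁻¹) ^ 2 * (blk z B (2 * d + 1) y) ^ 2 := by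
    funext y
    unfold wblk
    ring
  rw [h2, RB_mul p z false (((mu B.card (2 * d + 1) p)⁻¹) ^ 2)
    (fun y => (blk z B (2 * d + 1) y) ^ 2)]
  have h4 := RB_blk_sq_false h0 h1 hz hr
  have h7 := mul_le_mul_of_nonneg_left h4
    (by positivity : (0 : ℝ) ≤ ((mu B.card (2 * d + 1) p)⁻¹) ^ 2)
  refine h7.trans (le_of_eq ?_)
  field_simp

/-- the product estimator -/
def est (p : ℝ) (z : Fin n) (B1 B2 : Finset (Fin n)) (r : ℕ) (y : Edge n → ℝ) : ℝ :=
  1 - (1 - wblk p z B1 r y) * (1 - wblk p z B2 r y)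

theorem wblk_dep (p : ℝ) (z : Fin n) (B : Finset (Fin n)) (r : ℕ) :
    DepOn (eIn (insert z B)) (wblk p z B r) := by
  intro y y' h
  unfold wblk
  rw [blk_dep z B r y y' h]

theorem est_error {p : ℝ} (h0 : 0 < p) (h1 : p ≤ 1 / 2) {z : Fin n} {B1 B2 : Finset (Fin n)}
    (hB : Disjoint B1 B2) (hz1 : z ∉ B1) (hz2 : z ∉ B2) {d m : ℕ} (hc1 : B1.card = m)
    (hc2 : B2.card = m) (hr : 2 * d + 1 ≤ m)
    (hz : ∀ s : Fin n → Bool, x1 s = if s z = true then 1 else 0) :
    EP n p (fun s y => (est p z B1 B2 (2 * d + 1) y - x1 s) ^ 2)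
      ≤ p * (MM m p d - 1) ^ 2 + 6 * ((1 / 2) ^ (2 * d + 1) * MM m p d)
        + 6 * ((1 / 2) ^ (2 * d + 1) * MM m p d) ^ 2 := by
  have hp1 : p ≤ 1 := by linarith
  rw [EP_split p z hz]
  have hM1 : 1 ≤ MM m p d := MM_ge_one h0 (by exact_mod_cast hr)
  -- the part with `z` in the set
  have hT1 : RB p z true (fun y => (1 - est p z B1 B2 (2 * d + 1) y) ^ 2)
      ≤ p * (MM m p d - 1) ^ 2 := by
    have h2 : (fun y => (1 - est p z B1 B2 (2 * d + 1) y) ^ 2)
        = fun y => (1 - wblk p z B1 (2 * d + 1) y) ^ 2 * (1 - wblk p z B2 (2 * d + 1) y) ^ 2 := by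
      funext y
      unfold est
      ring
    have h3 := RB_indep p true hB hz1 hz2
      (G1 := fun y => (1 - wblk p z B1 (2 * d + 1) y) ^ 2)
      (G2 := fun y => (1 - wblk p z B2 (2 * d + 1) y) ^ 2)
      (by intro y y' h; simp only; rw [wblk_dep p z B1 (2 * d + 1) y y' h])
      (by intro y y' h; simp only; rw [wblk_dep p z B2 (2 * d + 1) y y' h])
    have h5 : wp p z true = p := by simp [wp]
    rw [h5] at h3
    rw [h2]
    have h6 := RB_one_sub h0 hp1 hz1 (d := d) (by rw [hc1]; exact hr)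
    have h7 := RB_one_sub h0 hp1 hz2 (d := d) (by rw [hc2]; exact hr)
    rw [hc1] at h6
    rw [hc2] at h7
    have h8 : 0 ≤ RB p z true (fun y => (1 - wblk p z B2 (2 * d + 1) y) ^ 2) := by
      have := RB_mono h0.le hp1 z true (F := fun _ => (0 : ℝ))
        (G := fun y => (1 - wblk p z B2 (2 * d + 1) y) ^ 2) (fun y => sq_nonneg _)
      rw [RB_const, zero_mul] at this
      exact this
    have h9 : RB p z true (fun y => (1 - wblk p z B1 (2 * d + 1) y) ^ 2)
        * RB p z true (fun y => (1 - wblk p z B2 (2 * d + 1) y) ^ 2)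
        ≤ (p * (MM m p d - 1)) * (p * (MM m p d - 1)) := by
      apply mul_le_mul h6 h7 h8
      apply mul_nonneg h0.le
      linarith
    rw [← h3] at h9
    have h10 : p * RB p z true (fun y => (1 - wblk p z B1 (2 * d + 1) y) ^ 2
        * (1 - wblk p z B2 (2 * d + 1) y) ^ 2) ≤ p * (p * (MM m p d - 1) ^ 2) := by
      refine h9.trans (le_of_eq ?_)
      ring
    exact le_of_mul_le_mul_left h10 h0
  have hT2 : RB p z false (fun y => (est p z B1 B2 (2 * d + 1) y) ^ 2)
      ≤ 6 * ((1 / 2) ^ (2 * d + 1) * MM m p d) + 6 * ((1 / 2) ^ (2 * d + 1) * MM m p d) ^ 2 := by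
    have h6 := RB_sq_false h0 hp1 hz1 (d := d) (by rw [hc1]; exact hr)
    have h7 := RB_sq_false h0 hp1 hz2 (d := d) (by rw [hc2]; exact hr)
    rw [hc1] at h6
    rw [hc2] at h7
    have h3 := RB_indep p false hB hz1 hz2
      (G1 := fun y => (wblk p z B1 (2 * d + 1) y) ^ 2)
      (G2 := fun y => (wblk p z B2 (2 * d + 1) y) ^ 2)
      (by intro y y' h; simp only; rw [wblk_dep p z B1 (2 * d + 1) y y' h])
      (by intro y y' h; simp only; rw [wblk_dep p z B2 (2 * d + 1) y y' h])
    have h5 : wp p z false = 1 - p := by simp [wp]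
    rw [h5] at h3
    have h8 : 0 ≤ RB p z false (fun y => (wblk p z B2 (2 * d + 1) y) ^ 2) := by
      have := RB_mono h0.le hp1 z false (F := fun _ => (0 : ℝ))
        (G := fun y => (wblk p z B2 (2 * d + 1) y) ^ 2) (fun y => sq_nonneg _)
      rw [RB_const, zero_mul] at this
      exact this
    have h9 : RB p z false (fun y => (wblk p z B1 (2 * d + 1) y) ^ 2)
        * RB p z false (fun y => (wblk p z B2 (2 * d + 1) y) ^ 2)
        ≤ ((1 / 2) ^ (2 * d + 1) * MM m p d) * ((1 / 2) ^ (2 * d + 1) * MM m p d) := by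
      apply mul_le_mul h6 h7 h8
      positivity
    rw [← h3] at h9
    have h11 : 0 ≤ RB p z false (fun y => (wblk p z B1 (2 * d + 1) y) ^ 2
        * (wblk p z B2 (2 * d + 1) y) ^ 2) := by
      have := RB_mono h0.le hp1 z false (F := fun _ => (0 : ℝ))
        (G := fun y => (wblk p z B1 (2 * d + 1) y) ^ 2 * (wblk p z B2 (2 * d + 1) y) ^ 2)
        (fun y => by positivity)
      rw [RB_const, zero_mul] at this
      exact this
    have h10 : RB p z false (fun y => (est p z B1 B2 (2 * d + 1) y) ^ 2)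
        ≤ 3 * (RB p z false (fun y => (wblk p z B1 (2 * d + 1) y) ^ 2)
          + RB p z false (fun y => (wblk p z B2 (2 * d + 1) y) ^ 2)
          + RB p z false (fun y => (wblk p z B1 (2 * d + 1) y) ^ 2
            * (wblk p z B2 (2 * d + 1) y) ^ 2)) := by
      rw [← RB_add, ← RB_add p z false (fun y => (wblk p z B1 (2 * d + 1) y) ^ 2
        + (wblk p z B2 (2 * d + 1) y) ^ 2), ← RB_mul]
      apply RB_mono h0.le hp1
      intro y
      unfold est
      set a := wblk p z B1 (2 * d + 1) y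
      set b := wblk p z B2 (2 * d + 1) y
      nlinarith [sq_nonneg (a - b), sq_nonneg (a + a * b), sq_nonneg (b + a * b)]
    have h12 : RB p z false (fun y => (wblk p z B1 (2 * d + 1) y) ^ 2
        * (wblk p z B2 (2 * d + 1) y) ^ 2) ≤ 2 * ((1 / 2) ^ (2 * d + 1) * MM m p d) ^ 2 := by
      nlinarith
    linarith
  linarith

end Pool.Agent.R563.PCl
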